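import Mathlib

/-!
# Complex polynomials all of whose roots are real
-/

set_option autoImplicit false

open Polynomial Complex Filter Topology

namespace Pool.Agent.H466.JE

/-- all the complex roots of `p` are real (so `p ≠ 0`) -/
def RR (p : ℂ[X]) : Prop := ∀ z : ℂ, p.eval z = 0 → z.im = 0

lemma RR.ne_zero {p : ℂ[X]} (h : RR p) : p ≠ 0 := by
  rintro rfl
  have := h Complex.I (by simp)
  simp at this

lemma RR.form {p : ℂ[X]} (h : RR p) : ∃ (a : ℂ) (s : Multiset ℝ), a ≠ 0 ∧
    p = C a * (s.map fun x : ℝ => X - C (x : ℂ)).prod ∧ Multiset.card s = p.natDegree := by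
  have hs := IsAlgClosed.splits p
  refine ⟨p.leadingCoeff, p.roots.map Complex.re, leadingCoeff_ne_zero.mpr h.ne_zero, ?_, ?_⟩
  · conv_lhs => rw [hs.eq_prod_roots]
    rw [Multiset.map_map]
    congr 2
    refine Multiset.map_congr rfl fun r hr => ?_
    have h1 := h r ((mem_roots h.ne_zero).mp hr)
    simp only [Function.comp]
    congr 2
    apply Complex.ext <;> simp [h1]
  · rw [Multiset.card_map]
    exact hs.natDegree_eq_card_roots.symm

lemma norm_prod_mono (s : Multiset ℝ) {x y y' : ℝ} (hy : |y'| ≤ |y|) :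
    ‖((s.map fun r : ℝ => (X - C (r : ℂ) : ℂ[X])).prod).eval (x + y' * I)‖ ≤
      ‖((s.map fun r : ℝ => (X - C (r : ℂ) : ℂ[X])).prod).eval (x + y * I)‖ := by
  induction s using Multiset.induction_on with
  | empty => simp
  | cons r s ih =>
    rw [Multiset.map_cons, Multiset.prod_cons, eval_mul, eval_mul, norm_mul, norm_mul]
    refine mul_le_mul ?_ ih (norm_nonneg _) (norm_nonneg _)
    have e : ∀ t : ℝ, ‖(X - C (r : ℂ) : ℂ[X]).eval (x + t * I)‖ = Real.sqrt ((x - r) ^ 2 + t ^ 2) := by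
      intro t
      have : (X - C (r : ℂ) : ℂ[X]).eval (x + t * I) = ((x - r : ℝ) : ℂ) + (t : ℂ) * I := by
        simp
        ring
      rw [this, Complex.norm_add_mul_I]
    rw [e, e]
    apply Real.sqrt_le_sqrt
    have := sq_le_sq.mpr hy
    linarith

lemma RR.mono {p : ℂ[X]} (h : RR p) {x y y' : ℝ} (hy : |y'| ≤ |y|) :
    ‖p.eval (x + y' * I)‖ ≤ ‖p.eval (x + y * I)‖ := by
  obtain ⟨a, s, -, rfl, -⟩ := h.form
  rw [eval_mul, eval_mul, norm_mul, norm_mul, eval_C, eval_C]
  exact mul_le_mul_of_nonneg_left (norm_prod_mono s hy) (norm_nonneg _)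

/-- limits -/
lemma lim_zero {ι : Type*} {l : Filter ι} [l.NeBot] {p : ι → ℂ[X]} (h : ∀ᶠ k in l, RR (p k)) {f : ℂ → ℂ}
    (hf : ∀ z, Tendsto (fun k => (p k).eval z) l (𝓝 (f z))) {x y y' : ℝ}
    (hz : f (x + y * I) = 0) (hy : |y'| ≤ |y|) : f (x + y' * I) = 0 := by
  have h1 := (hf (x + y' * I)).norm
  have h2 := (hf (x + y * I)).norm
  rw [hz, norm_zero] at h2
  have h3 := le_of_tendsto_of_tendsto h1 h2 (h.mono fun k hk => hk.mono hy)
  exact norm_le_zero_iff.mp h3

/-- a polynomial limit -/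
lemma RR.lim {ι : Type*} {l : Filter ι} [l.NeBot] {p : ι → ℂ[X]} (h : ∀ᶠ k in l, RR (p k)) {q : ℂ[X]}
    (hq : q ≠ 0) (hf : ∀ z, Tendsto (fun k => (p k).eval z) l (𝓝 (q.eval z))) : RR q := by
  intro z hz
  by_contra hy
  apply hq
  have h1 : ∀ y' : ℝ, |y'| ≤ |z.im| → q.eval ((z.re : ℂ) + y' * I) = 0 := fun y' hy' =>
    lim_zero (f := fun z => q.eval z) h hf (x := z.re) (y := z.im) (by
      rw [Complex.re_add_im]
      exact hz) hy'
  apply Polynomial.eq_zero_of_infinite_isRoot
  have hinf : (Set.Icc (-|z.im|) |z.im|).Infinite := Set.Icc_infinite (by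
    have := abs_pos.mpr hy
    linarith)
  have hinj : Set.InjOn (fun y' : ℝ => (z.re : ℂ) + y' * I) (Set.Icc (-|z.im|) |z.im|) := by
    intro a _ b _ hab
    have := congrArg Complex.im hab
    simpa using this
  refine (hinf.image hinj).mono ?_
  rintro _ ⟨y', hy', rfl⟩
  exact h1 y' (abs_le.mpr hy')

lemma RR.C_mul {p : ℂ[X]} (h : RR p) {a : ℂ} (ha : a ≠ 0) : RR (C a * p) := by
  intro z hz
  rw [eval_mul, eval_C] at hz
  exact h z ((mul_eq_zero.mp hz).resolve_left ha)

lemma RR.of_C_mul {p : ℂ[X]} {a : ℂ} (h : RR (C a * p)) : RR p := by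
  intro z hz
  exact h z (by rw [eval_mul, hz, mul_zero])

lemma im_sum_inv (s : Multiset ℂ) (hs : ∀ r ∈ s, r.im = 0) {z : ℂ} (hz : z.im ≠ 0) :
    (s.map fun r => 1 / (z - r)).sum = 0 ∨ (s.map fun r => 1 / (z - r)).sum.im ≠ 0 := by
  have key : ∀ s : Multiset ℂ, (∀ r ∈ s, r.im = 0) →
      ∃ t : ℝ, 0 ≤ t ∧ (s.map fun r => 1 / (z - r)).sum.im = -z.im * t ∧ (s = 0 ∨ 0 < t) := by
    intro s
    induction s using Multiset.induction_on with
    | empty => intro _; exact ⟨0, le_rfl, by simp, Or.inl rfl⟩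
    | cons r s ih =>
      intro hs
      obtain ⟨t, ht0, ht, -⟩ := ih fun r' hr' => hs r' (Multiset.mem_cons_of_mem hr')
      have hr := hs r (Multiset.mem_cons_self r s)
      have hne : z - r ≠ 0 := fun h => hz (by
        have := congrArg Complex.im h
        rw [sub_im, hr, sub_zero] at this
        simpa using this)
      have hpos : 0 < normSq (z - r) := normSq_pos.mpr hne
      refine ⟨(normSq (z - r))⁻¹ + t, by positivity, ?_, Or.inr (by positivity)⟩
      rw [Multiset.map_cons, Multiset.sum_cons, add_im, ht, one_div, Complex.inv_im, sub_im, hr]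
      field_simp
      ring
  obtain ⟨t, -, ht, h⟩ := key s hs
  rcases h with rfl | h
  · left; simp
  · right
    rw [ht]
    exact mul_ne_zero (neg_ne_zero.mpr hz) h.ne'

/-- the first order step -/
lemma RR.lin {p : ℂ[X]} (h : RR p) (k : ℝ) : RR (p - C (k : ℂ) * derivative p) := by
  intro z hz
  by_contra hy
  have hp : p.eval z ≠ 0 := fun h1 => hy (h z h1)
  have hsum := (IsAlgClosed.splits p).eval_derivative_div_eval_of_ne_zero hp
  rw [eval_sub, eval_mul, eval_C, sub_eq_zero] at hz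
  have h1 : (1 : ℂ) = k * (p.derivative.eval z / p.eval z) := by
    rw [← mul_div_assoc, ← hz, div_self hp]
  rw [hsum] at h1
  have hk : k ≠ 0 := by
    rintro rfl
    simp at h1
  rcases im_sum_inv p.roots (fun r hr => h r ((mem_roots h.ne_zero).mp hr)) hy with h2 | h2
  · rw [h2, mul_zero] at h1
    exact one_ne_zero h1
  · apply h2
    have h3 := congrArg Complex.im h1
    rw [Complex.im_ofReal_mul, Complex.one_im] at h3
    exact (mul_eq_zero.mp h3.symm).resolve_left hk

end Pool.Agent.H466.JE
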