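import Pool.Agent.H466.JE.P1

/-!
# The quadratic step: `(D - c)² + y²` preserves real roots in degree `d` if `d y² < c²`
-/

set_option autoImplicit false

open Polynomial Complex Filter Topology

namespace Pool.Agent.H466.JE

lemma ivt {Q : ℝ[X]} {a b : ℝ} (hab : a < b) (h : Q.eval a * Q.eval b < 0) :
    ∃ x, a < x ∧ x < b ∧ Q.eval x = 0 := by
  have hc : ContinuousOn (fun x => Q.eval x) (Set.Icc a b) := Q.continuous.continuousOn
  rcases mul_neg_iff.mp h with ⟨h1, h2⟩ | ⟨h1, h2⟩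
  · obtain ⟨x, hx, hx0⟩ := intermediate_value_Ioo' hab.le hc ⟨h2, h1⟩
    exact ⟨x, hx.1, hx.2, hx0⟩
  · obtain ⟨x, hx, hx0⟩ := intermediate_value_Ioo hab.le hc ⟨h1, h2⟩
    exact ⟨x, hx.1, hx.2, hx0⟩

lemma splits_of_card {Q : ℝ[X]} (h0 : Q ≠ 0) {k : ℕ} (hd : Q.natDegree ≤ k + 1)
    (hr : k ≤ Multiset.card Q.roots) : Q.Splits := by
  obtain ⟨q, h1, h2, h3⟩ := exists_prod_multiset_X_sub_C_mul Q
  have h4 : q.natDegree ≤ 1 := by omega
  have h5 : q ≠ 0 := by
    rintro rfl
    rw [mul_zero] at h1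
    exact h0 h1.symm
  have h6 : q.natDegree = 0 := by
    by_contra hne
    have h7 : q.natDegree = 1 := by omega
    have h8 := splits_iff_card_roots.mp (Splits.of_natDegree_eq_one h7)
    rw [h3, h7] at h8
    simp at h8
  apply splits_iff_card_roots.mpr
  omega

section

variable {k : ℕ} (e : Fin (k + 1) → ℝ)

/-- the monic polynomial with roots `e` -/
noncomputable def PP : ℝ[X] := ∏ i, (X - C (e i))

lemma PP_eval (x : ℝ) : (PP e).eval x = ∏ i, (x - e i) := by
  unfold PP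
  rw [eval_prod]
  simp

lemma PP_ne {x : ℝ} (hx : ∀ i, x ≠ e i) : (PP e).eval x ≠ 0 := by
  rw [PP_eval]
  exact Finset.prod_ne_zero_iff.mpr fun i _ => sub_ne_zero.mpr (hx i)

lemma PP_deriv {x : ℝ} (hx : ∀ i, x ≠ e i) :
    (derivative (PP e)).eval x = (PP e).eval x * ∑ i, 1 / (x - e i) := by
  have h : HasDerivAt (fun x => ∏ i, (x - e i)) ((derivative (PP e)).eval x) x := by
    have := (PP e).hasDerivAt x
    have e1 : (fun x => (PP e).eval x) = fun x => ∏ i, (x - e i) := funext (PP_eval e)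
    rw [e1] at this
    exact this
  have h2 : HasDerivAt (fun x => ∏ i, (x - e i)) (∑ i, (∏ j ∈ Finset.univ.erase i, (x - e j)) • (1 : ℝ)) x := by
    have := HasDerivAt.fun_finsetProd (u := (Finset.univ : Finset (Fin (k + 1))))
      (f := fun i x => x - e i) (f' := fun _ => (1 : ℝ)) (x := x) (fun i _ => (hasDerivAt_id x).sub_const (e i))
    exact this
  rw [h.unique h2, PP_eval, Finset.mul_sum]
  refine Finset.sum_congr rfl fun i hi => ?_
  rw [← Finset.mul_prod_erase _ _ hi, smul_eq_mul, mul_one]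
  have := sub_ne_zero.mpr (hx i)
  field_simp

lemma PP_deriv2 {x : ℝ} (hx : ∀ i, x ≠ e i) :
    (derivative (derivative (PP e))).eval x =
      (PP e).eval x * ((∑ i, 1 / (x - e i)) ^ 2 - ∑ i, (1 / (x - e i)) ^ 2) := by
  have h1 : ∀ᶠ y in 𝓝 x, (derivative (PP e)).eval y = (PP e).eval y * ∑ i, 1 / (y - e i) := by
    have : ∀ᶠ y in 𝓝 x, ∀ i, y ≠ e i := by
      rw [eventually_all]
      intro i
      exact isOpen_ne.mem_nhds (hx i)
    filter_upwards [this] with y hy
    exact PP_deriv e hy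
  have h2 : HasDerivAt (fun y => ∑ i, 1 / (y - e i)) (∑ i, -(1 / (x - e i)) ^ 2) x := by
    refine HasDerivAt.fun_sum fun i _ => ?_
    have h3 := ((hasDerivAt_id x).sub_const (e i)).inv (sub_ne_zero.mpr (hx i))
    have e1 : (fun y => 1 / (y - e i)) = (fun y => id y - e i)⁻¹ := by
      funext y
      simp
    rw [e1]
    refine h3.congr_deriv ?_
    simp [neg_div]
  have h3 := ((PP e).hasDerivAt x).mul h2
  have h4 := (derivative (PP e)).hasDerivAt x
  have h5 : HasDerivAt (fun y => (derivative (PP e)).eval y)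
      ((derivative (PP e)).eval x * (∑ i, 1 / (x - e i)) + (PP e).eval x * ∑ i, -(1 / (x - e i)) ^ 2) x := by
    refine HasDerivAt.congr_of_eventuallyEq h3 ?_
    exact h1
  rw [h4.unique h5, PP_deriv e hx, Finset.sum_neg_distrib]
  ring

/-- the operator -/
noncomputable def opR (c y : ℝ) (P : ℝ[X]) : ℝ[X] :=
  derivative (derivative P) - C (2 * c) * derivative P + C (c ^ 2 + y ^ 2) * P

lemma op_eval {c y ξ : ℝ} (hx : ∀ i, ξ ≠ e i) (hξ : ∑ i, 1 / (ξ - e i) = c) :
    (opR c y (PP e)).eval ξ = (PP e).eval ξ * (y ^ 2 - ∑ i, (1 / (ξ - e i)) ^ 2) := by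
  unfold opR
  rw [eval_add, eval_sub, eval_mul, eval_mul, eval_C, eval_C, PP_deriv2 e hx, PP_deriv e hx, hξ]
  ring

lemma sq_bound {c y ξ : ℝ} (hξ : ∑ i, 1 / (ξ - e i) = c) (hc : ((k + 1 : ℕ) : ℝ) * y ^ 2 < c ^ 2) :
    y ^ 2 - ∑ i, (1 / (ξ - e i)) ^ 2 < 0 := by
  have h := sq_sum_le_card_mul_sum_sq (s := (Finset.univ : Finset (Fin (k + 1))))
    (f := fun i => 1 / (ξ - e i))
  rw [hξ, Finset.card_univ, Fintype.card_fin] at h
  have hk : (0 : ℝ) < ((k + 1 : ℕ) : ℝ) := by positivity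
  have h2 : ((k + 1 : ℕ) : ℝ) * y ^ 2 < ((k + 1 : ℕ) : ℝ) * ∑ i, (1 / (ξ - e i)) ^ 2 := lt_of_lt_of_le hc h
  have := lt_of_mul_lt_mul_left h2 hk.le
  linarith

/-- a critical point in each gap -/
lemma gap (he : StrictMono e) (c : ℝ) (j : Fin k) :
    ∃ ξ, e j.castSucc < ξ ∧ ξ < e j.succ ∧ ∑ i, 1 / (ξ - e i) = c := by
  have hlt : e j.castSucc < e j.succ := he Fin.castSucc_lt_succ
  have hd : ∀ x, HasDerivAt (fun x => Real.exp (-(c * x)) * (PP e).eval x)
      (Real.exp (-(c * x)) * ((derivative (PP e)).eval x - c * (PP e).eval x)) x := by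
    intro x
    have h1 : HasDerivAt (fun x => Real.exp (-(c * x))) (Real.exp (-(c * x)) * (-c)) x := by
      have := (((hasDerivAt_id x).const_mul c).neg).exp
      simpa using this
    refine (h1.mul ((PP e).hasDerivAt x)).congr_deriv ?_
    ring
  have hz : ∀ i, (PP e).eval (e i) = 0 := fun i => by
    rw [PP_eval]
    exact Finset.prod_eq_zero (Finset.mem_univ i) (sub_self _)
  obtain ⟨ξ, hξ, h0⟩ := exists_hasDerivAt_eq_zero hlt
    (fun x _ => (hd x).continuousAt.continuousWithinAt) (by rw [hz, hz]; simp) (fun x _ => hd x)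
  have hne : ∀ i, ξ ≠ e i := by
    intro i hi
    rw [hi] at hξ
    have h1 := he.lt_iff_lt.mp hξ.1
    have h2 := he.lt_iff_lt.mp hξ.2
    rw [Fin.lt_def] at h1 h2
    simp at h1 h2
    omega
  refine ⟨ξ, hξ.1, hξ.2, ?_⟩
  have h1 := (mul_eq_zero.mp h0).resolve_left (Real.exp_pos _).ne'
  rw [PP_deriv e hne] at h1
  have h2 : (PP e).eval ξ * (∑ i, 1 / (ξ - e i) - c) = 0 := by linarith
  have := (mul_eq_zero.mp h2).resolve_left (PP_ne e hne)
  linarith

/-- a critical point to the right of the last root -/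
lemma gap_last (he : StrictMono e) {c : ℝ} (hc : 0 < c) :
    ∃ ξ, e (Fin.last k) < ξ ∧ ∑ i, 1 / (ξ - e i) = c := by
  set L := e (Fin.last k) with hL
  have hle : ∀ i, e i ≤ L := fun i => he.monotone (Fin.le_last i)
  set x0 := L + 1 / (c + 1) with hx0
  set x1 := L + ((k + 1 : ℕ) : ℝ) / c with hx1
  have hk1 : (1 : ℝ) ≤ ((k + 1 : ℕ) : ℝ) := by
    push_cast
    have : (0 : ℝ) ≤ k := Nat.cast_nonneg k
    linarith
  have h01 : x0 ≤ x1 := by
    rw [hx0, hx1]
    have : 1 / (c + 1) ≤ ((k + 1 : ℕ) : ℝ) / c := by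
      rw [div_le_div_iff₀ (by linarith) hc]
      nlinarith
    linarith
  have hgt : ∀ x, x0 ≤ x → L < x := fun x hx => by
    have : 0 < 1 / (c + 1) := by positivity
    linarith
  have hcont : ContinuousOn (fun x => ∑ i, 1 / (x - e i)) (Set.Icc x0 x1) := by
    refine continuousOn_finsetSum _ fun i _ => ?_
    refine ContinuousOn.div continuousOn_const (by fun_prop) fun x hx => ?_
    have h1 := hgt x hx.1
    have h2 := hle i
    exact (by linarith : 0 < x - e i).ne'
  have hlo : c ≤ ∑ i, 1 / (x0 - e i) := by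
    have h1 : 1 / (x0 - L) ≤ ∑ i, 1 / (x0 - e i) := by
      refine Finset.single_le_sum (f := fun i => 1 / (x0 - e i)) (fun i _ => ?_) (Finset.mem_univ (Fin.last k))
      have h1 := hgt x0 le_rfl
      have h2 := hle i
      exact (one_div_pos.mpr (by linarith)).le
    have h2 : 1 / (x0 - L) = c + 1 := by
      rw [hx0]
      field_simp
      ring
    linarith
  have hhi : ∑ i, 1 / (x1 - e i) ≤ c := by
    have h1 : ∀ i ∈ (Finset.univ : Finset (Fin (k + 1))), 1 / (x1 - e i) ≤ c / ((k + 1 : ℕ) : ℝ) := by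
      intro i _
      have h2 := hle i
      have h3 : 0 < ((k + 1 : ℕ) : ℝ) / c := by positivity
      have h4 : ((k + 1 : ℕ) : ℝ) / c ≤ x1 - e i := by rw [hx1]; linarith
      calc 1 / (x1 - e i) ≤ 1 / (((k + 1 : ℕ) : ℝ) / c) := one_div_le_one_div_of_le h3 h4
        _ = c / ((k + 1 : ℕ) : ℝ) := one_div_div _ _
    refine (Finset.sum_le_sum h1).trans (le_of_eq ?_)
    rw [Finset.sum_const, Finset.card_univ, Fintype.card_fin, nsmul_eq_mul]
    field_simp
  obtain ⟨ξ, hξ, h⟩ := intermediate_value_Icc' h01 hcont ⟨hhi, hlo⟩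
  exact ⟨ξ, hgt ξ hξ.1, h⟩

/-- simple roots -/
lemma quad_simple (he : StrictMono e) {c y : ℝ} (hc : 0 < c) (hy : ((k + 1 : ℕ) : ℝ) * y ^ 2 < c ^ 2) :
    (opR c y (PP e)).Splits := by
  -- the critical points
  have hex : ∀ j : Fin (k + 1), ∃ ξ, e j < ξ ∧ (∀ i : Fin (k + 1), j < i → ξ < e i) ∧
      ∑ i, 1 / (ξ - e i) = c := by
    intro j
    rcases Fin.eq_castSucc_or_eq_last j with ⟨j', rfl⟩ | rfl
    · obtain ⟨ξ, h1, h2, h3⟩ := gap e he c j'
      refine ⟨ξ, h1, fun i hi => h2.trans_le (he.monotone ?_), h3⟩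
      exact Fin.castSucc_lt_iff_succ_le.mp hi
    · obtain ⟨ξ, h1, h3⟩ := gap_last e he hc
      exact ⟨ξ, h1, fun i hi => absurd hi (not_lt.mpr (Fin.le_last i)), h3⟩
  choose ξ h1 h2 h3 using hex
  have hle : ∀ j i, i ≤ j → e i < ξ j := fun j i hij => (he.monotone hij).trans_lt (h1 j)
  have hne : ∀ j i, ξ j ≠ e i := fun j i => by
    rcases le_or_gt i j with h | h
    · exact (hle j i h).ne'
    · exact (h2 j i h).ne
  have hmono : ∀ j : Fin k, ξ j.castSucc < ξ j.succ := fun j =>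
    (h2 _ _ Fin.castSucc_lt_succ).trans (h1 _)
  have hsign : ∀ j : Fin k, (PP e).eval (ξ j.castSucc) * (PP e).eval (ξ j.succ) < 0 := by
    intro j
    rw [PP_eval, PP_eval, ← Finset.prod_mul_distrib, ← Finset.mul_prod_erase _ _ (Finset.mem_univ j.succ)]
    refine mul_neg_of_neg_of_pos ?_ (Finset.prod_pos fun i hi => ?_)
    · exact mul_neg_of_neg_of_pos (sub_neg.mpr (h2 _ _ Fin.castSucc_lt_succ)) (sub_pos.mpr (h1 _))
    · have hi' := Finset.ne_of_mem_erase hi
      rcases lt_or_gt_of_ne hi' with h | h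
      · have h5 : i ≤ j.castSucc := by
          rw [Fin.le_def]
          rw [Fin.lt_def] at h
          simp at h ⊢
          omega
        exact mul_pos (sub_pos.mpr (hle _ _ h5)) (sub_pos.mpr (hle _ _ h.le))
      · exact mul_pos_of_neg_of_neg (sub_neg.mpr (h2 _ _ (Fin.castSucc_lt_succ.trans h)))
          (sub_neg.mpr (h2 _ _ h))
  have hQ : ∀ j : Fin k, (opR c y (PP e)).eval (ξ j.castSucc) * (opR c y (PP e)).eval (ξ j.succ) < 0 := by
    intro j
    rw [op_eval e (hne _) (h3 _), op_eval e (hne _) (h3 _)]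
    have h5 := sq_bound e (h3 j.castSucc) hy
    have h6 := sq_bound e (h3 j.succ) hy
    have h7 := hsign j
    have h8 := mul_pos_of_neg_of_neg h5 h6
    have e1 : (PP e).eval (ξ j.castSucc) * (y ^ 2 - ∑ i, (1 / (ξ j.castSucc - e i)) ^ 2) *
        ((PP e).eval (ξ j.succ) * (y ^ 2 - ∑ i, (1 / (ξ j.succ - e i)) ^ 2)) =
        ((PP e).eval (ξ j.castSucc) * (PP e).eval (ξ j.succ)) *
        ((y ^ 2 - ∑ i, (1 / (ξ j.castSucc - e i)) ^ 2) * (y ^ 2 - ∑ i, (1 / (ξ j.succ - e i)) ^ 2)) := by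
      ring
    rw [e1]
    exact mul_neg_of_neg_of_pos h7 h8
  have hroot : ∀ j : Fin k, ∃ x, ξ j.castSucc < x ∧ x < ξ j.succ ∧ (opR c y (PP e)).eval x = 0 :=
    fun j => ivt (hmono j) (hQ j)
  choose x hx1 hx2 hx3 using hroot
  have h0 : opR c y (PP e) ≠ 0 := by
    intro h
    have h5 := op_eval e (y := y) (hne (Fin.last k)) (h3 _)
    rw [h, eval_zero] at h5
    exact mul_ne_zero (PP_ne e (hne _)) (sq_bound e (h3 _) hy).ne h5.symm
  have hinj : Function.Injective x := by
    intro a b hab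
    by_contra hne'
    wlog h : a < b generalizing a b
    · exact this hab.symm (Ne.symm hne') (lt_of_le_of_ne (not_lt.mp h) (Ne.symm hne'))
    have hm : StrictMono ξ := Fin.strictMono_iff_lt_succ.mpr hmono
    have h5 : ξ a.succ ≤ ξ b.castSucc := hm.monotone (by
      rw [Fin.le_def]
      rw [Fin.lt_def] at h
      simp
      omega)
    have := hx2 a
    have := hx1 b
    linarith
  have hcard : k ≤ Multiset.card (opR c y (PP e)).roots := by
    have h5 : (Finset.univ.image x).card = k := by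
      rw [Finset.card_image_of_injective _ hinj, Finset.card_univ, Fintype.card_fin]
    refine h5.ge.trans ?_
    have h6 : Finset.univ.image x ⊆ (opR c y (PP e)).roots.toFinset := by
      intro r hr
      obtain ⟨j, -, rfl⟩ := Finset.mem_image.mp hr
      rw [Multiset.mem_toFinset, mem_roots h0]
      exact hx3 j
    exact (Finset.card_le_card h6).trans (Multiset.toFinset_card_le _)
  refine splits_of_card h0 ?_ hcard
  have hdeg : (PP e).natDegree = k + 1 := by
    unfold PP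
    rw [natDegree_prod_of_monic _ _ (fun i _ => monic_X_sub_C _)]
    simp
  have hd1 : (derivative (PP e)).natDegree ≤ k + 1 := (natDegree_derivative_le _).trans (by omega)
  have hd2 : (derivative (derivative (PP e))).natDegree ≤ k + 1 :=
    (natDegree_derivative_le _).trans (by omega)
  unfold opR
  refine (natDegree_add_le _ _).trans (max_le ((natDegree_sub_le _ _).trans (max_le hd2 ?_)) ?_)
  · exact (natDegree_C_mul_le _ _).trans hd1
  · exact (natDegree_C_mul_le _ _).trans hdeg.le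

end

end Pool.Agent.H466.JE
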