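import Pool.Agent.H466.JE.P2

/-!
# The quadratic step for complex polynomials with real roots
-/

set_option autoImplicit false

open Polynomial Complex Filter Topology

namespace Pool.Agent.H466.JE

/-- the operator `(D - c)² + y²` -/
noncomputable def opC (c y : ℂ) (P : ℂ[X]) : ℂ[X] :=
  derivative (derivative P) - C (2 * c) * derivative P + C (c ^ 2 + y ^ 2) * P

lemma opC_C_mul (c y a : ℂ) (P : ℂ[X]) : opC c y (C a * P) = C a * opC c y P := by
  unfold opC
  simp only [derivative_C_mul]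
  ring

lemma opC_map (c y : ℝ) (P : ℝ[X]) :
    opC c y (P.map (algebraMap ℝ ℂ)) = (opR c y P).map (algebraMap ℝ ℂ) := by
  unfold opC opR
  simp

lemma RR_of_splits {P : ℝ[X]} (h : P.Splits) (h0 : P ≠ 0) : RR (P.map (algebraMap ℝ ℂ)) := by
  intro z hz
  have h1 : (P.map (algebraMap ℝ ℂ)).IsRoot z := hz
  have h2 := h.mem_range_of_isRoot h0 h1
  obtain ⟨x, rfl⟩ := h2
  simp

lemma PP_map {k : ℕ} (e : Fin (k + 1) → ℝ) :
    (PP e).map (algebraMap ℝ ℂ) = ∏ i, (X - C ((e i : ℝ) : ℂ)) := by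
  unfold PP
  rw [Polynomial.map_prod]
  simp

lemma opC_ne_zero {c y : ℝ} (hc : 0 < c ^ 2 + y ^ 2) {p : ℂ[X]} (hp : p ≠ 0) : opC c y p ≠ 0 := by
  intro h0
  have h4 := congrArg (fun q : ℂ[X] => q.coeff p.natDegree) h0
  simp only [opC, coeff_add, coeff_sub, coeff_C_mul, coeff_derivative, coeff_zero] at h4
  rw [coeff_eq_zero_of_natDegree_lt (p := p) (n := p.natDegree + 1 + 1) (by omega),
    coeff_eq_zero_of_natDegree_lt (p := p) (n := p.natDegree + 1) (by omega)] at h4
  simp only [zero_mul, mul_zero, sub_zero, zero_add] at h4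
  rcases mul_eq_zero.mp h4 with h | h
  · have : (((c ^ 2 + y ^ 2 : ℝ)) : ℂ) = 0 := by push_cast; exact h
    exact hc.ne' (Complex.ofReal_eq_zero.mp this)
  · exact hp (leadingCoeff_eq_zero.mp h)

/-- distinct roots -/
lemma quad_inj {k : ℕ} {e : Fin (k + 1) → ℝ} (he : Function.Injective e) {c y : ℝ} (hc : 0 < c)
    (hy : ((k + 1 : ℕ) : ℝ) * y ^ 2 < c ^ 2) : RR (opC c y (∏ i, (X - C ((e i : ℝ) : ℂ)))) := by
  -- sort
  set s : Finset ℝ := Finset.univ.image e with hs
  have hcard : s.card = k + 1 := by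
    rw [hs, Finset.card_image_of_injective _ he, Finset.card_univ, Fintype.card_fin]
  have h1 : (∏ i, (X - C ((e i : ℝ) : ℂ)) : ℂ[X]) =
      ∏ i, (X - C (((s.orderEmbOfFin hcard) i : ℝ) : ℂ)) := by
    have e1 : (∏ r ∈ s, (X - C ((r : ℝ) : ℂ)) : ℂ[X]) = ∏ i, (X - C ((e i : ℝ) : ℂ)) := by
      rw [hs, Finset.prod_image fun a _ b _ h => he h]
    have himg := Finset.image_orderEmbOfFin_univ s hcard
    have e2 : (∏ r ∈ Finset.univ.image (s.orderEmbOfFin hcard), (X - C ((r : ℝ) : ℂ)) : ℂ[X]) =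
        ∏ i, (X - C (((s.orderEmbOfFin hcard) i : ℝ) : ℂ)) := by
      rw [Finset.prod_image fun a _ b _ h => (s.orderEmbOfFin hcard).injective h]
    rw [himg] at e2
    rw [← e1, e2]
  have h2 := quad_simple (s.orderEmbOfFin hcard) (s.orderEmbOfFin hcard).strictMono hc hy
  have h3 : opR c y (PP (s.orderEmbOfFin hcard)) ≠ 0 := by
    intro h0
    have h4 : opC c y ((PP (s.orderEmbOfFin hcard)).map (algebraMap ℝ ℂ)) = 0 := by
      rw [opC_map, h0, Polynomial.map_zero]
    refine opC_ne_zero (by positivity) ?_ h4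
    rw [PP_map]
    exact (monic_prod_of_monic _ _ fun i _ => monic_X_sub_C _).ne_zero
  rw [h1, ← PP_map, opC_map]
  exact RR_of_splits h2 h3

/-- the operator commutes with evaluation of parameters -/
lemma eval_op_param (c y z : ℂ) (P : ℂ[X][X]) (t : ℂ) :
    (opC c y (P.map (evalRingHom t))).eval z = ((derivative (derivative P) - C (C (2 * c)) * derivative P +
      C (C (c ^ 2 + y ^ 2)) * P).eval (C z)).eval t := by
  have h1 : opC c y (P.map (evalRingHom t)) = (derivative (derivative P) - C (C (2 * c)) * derivative P +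
      C (C (c ^ 2 + y ^ 2)) * P).map (evalRingHom t) := by
    unfold opC
    simp [Polynomial.derivative_map]
  rw [h1]
  generalize (derivative (derivative P) - C (C (2 * c)) * derivative P + C (C (c ^ 2 + y ^ 2)) * P) = Q
  have h2 := Polynomial.hom_eval₂ Q (RingHom.id ℂ[X]) (evalRingHom t) (C z)
  rw [RingHom.comp_id] at h2
  rw [Polynomial.eval_map]
  simp only [coe_evalRingHom, eval_C] at h2
  rw [← h2]
  rfl

/-- all roots real, positive `c` -/
lemma quad_fin {k : ℕ} (r : Fin (k + 1) → ℝ) {c y : ℝ} (hc : 0 < c)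
    (hy : ((k + 1 : ℕ) : ℝ) * y ^ 2 < c ^ 2) : RR (opC c y (∏ i, (X - C ((r i : ℝ) : ℂ)))) := by
  set P : ℂ[X][X] := ∏ i : Fin (k + 1), (X - C (C ((r i : ℝ) : ℂ) + C ((i : ℕ) : ℂ) * X)) with hP
  have hPm : ∀ t : ℂ, P.map (evalRingHom t) = ∏ i : Fin (k + 1), (X - C (((r i : ℝ) : ℂ) + ((i : ℕ) : ℂ) * t)) := by
    intro t
    rw [hP, Polynomial.map_prod]
    refine Finset.prod_congr rfl fun i _ => ?_
    simp
  have h0 : P.map (evalRingHom 0) = ∏ i, (X - C ((r i : ℝ) : ℂ)) := by
    rw [hPm]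
    simp
  have hne : (∏ i, (X - C ((r i : ℝ) : ℂ)) : ℂ[X]) ≠ 0 :=
    (monic_prod_of_monic _ _ fun i _ => monic_X_sub_C _).ne_zero
  refine RR.lim (l := 𝓝[>] (0 : ℝ)) (p := fun t : ℝ => opC c y (P.map (evalRingHom (t : ℂ)))) ?_
    (opC_ne_zero (by positivity) hne) ?_
  · -- distinct roots for small `t > 0`
    have hev : ∀ᶠ t : ℝ in 𝓝[>] 0, ∀ q : Fin (k + 1) × Fin (k + 1), q.1 ≠ q.2 →
        r q.1 + (q.1 : ℕ) * t ≠ r q.2 + (q.2 : ℕ) * t := by
      rw [eventually_all]
      rintro ⟨i, j⟩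
      by_cases hij : i = j
      · exact Eventually.of_forall fun t h => absurd hij h
      have hij' : ((i : ℕ) : ℝ) - ((j : ℕ) : ℝ) ≠ 0 := sub_ne_zero.mpr fun h =>
        hij (Fin.ext (by exact_mod_cast h))
      set v : ℝ := (r j - r i) / (((i : ℕ) : ℝ) - ((j : ℕ) : ℝ)) with hv
      have h1 : ∀ t : ℝ, t ≠ v → r i + (i : ℕ) * t ≠ r j + (j : ℕ) * t := by
        intro t ht h
        apply ht
        rw [hv, eq_div_iff hij']
        linarith
      rcases le_or_gt v 0 with hv0 | hv0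
      · filter_upwards [self_mem_nhdsWithin] with t ht _
        exact h1 t (ne_of_gt (lt_of_le_of_lt hv0 ht))
      · filter_upwards [Ioo_mem_nhdsGT hv0] with t ht _
        exact h1 t ht.2.ne
    filter_upwards [hev] with t ht
    rw [hPm]
    have e1 : (∏ i : Fin (k + 1), (X - C (((r i : ℝ) : ℂ) + ((i : ℕ) : ℂ) * (t : ℂ))) : ℂ[X]) =
        ∏ i : Fin (k + 1), (X - C (((r i + (i : ℕ) * t : ℝ)) : ℂ)) := by
      refine Finset.prod_congr rfl fun i _ => ?_
      push_cast
      rfl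
    rw [e1]
    refine quad_inj (fun i j hij => ?_) hc hy
    by_contra hne'
    exact ht (i, j) hne' hij
  · intro z
    rw [← h0]
    simp only [eval_op_param]
    set q : ℂ[X] := (derivative (derivative P) - C (C (2 * (c : ℂ))) * derivative P +
      C (C ((c : ℂ) ^ 2 + (y : ℂ) ^ 2)) * P).eval (C z) with hq
    have h1 : Tendsto (fun t : ℝ => q.eval (t : ℂ)) (𝓝 0) (𝓝 (q.eval ((0 : ℝ) : ℂ))) :=
      (q.continuous.comp Complex.continuous_ofReal).tendsto 0
    rw [Complex.ofReal_zero] at h1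
    exact h1.mono_left nhdsWithin_le_nhds

lemma eq_C_of_card_zero {p : ℂ[X]} (h : p.natDegree = 0) : p = C (p.coeff 0) :=
  eq_C_of_natDegree_eq_zero h

lemma RR.quad_pos {p : ℂ[X]} (h : RR p) {c y : ℝ} (hc : 0 < c) (hy : (p.natDegree : ℝ) * y ^ 2 < c ^ 2) :
    RR (opC c y p) := by
  obtain ⟨a, s, ha, hp, hcard⟩ := h.form
  rcases Nat.eq_zero_or_pos p.natDegree with h0 | h0
  · rw [h0, Multiset.card_eq_zero] at hcard
    rw [hcard, Multiset.map_zero, Multiset.prod_zero, mul_one] at hp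
    rw [hp]
    intro z hz
    exfalso
    unfold opC at hz
    simp at hz
    rcases hz with h1 | h1
    · have : (((c ^ 2 + y ^ 2 : ℝ)) : ℂ) = 0 := by push_cast; exact h1
      have h2 := Complex.ofReal_eq_zero.mp this
      have : 0 < c ^ 2 + y ^ 2 := by positivity
      linarith
    · exact ha h1
  · obtain ⟨k, hk⟩ : ∃ k, p.natDegree = k + 1 := ⟨p.natDegree - 1, by omega⟩
    rw [hk] at hcard hy
    obtain ⟨l, rfl⟩ : ∃ l : List ℝ, s = (l : Multiset ℝ) := ⟨s.toList, by simp⟩
    rw [Multiset.coe_card] at hcard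
    have h1 : ((l : Multiset ℝ).map fun x : ℝ => (X - C (x : ℂ) : ℂ[X])).prod =
        ∏ i : Fin (k + 1), (X - C ((l.get (i.cast hcard.symm) : ℝ) : ℂ)) := by
      rw [Multiset.map_coe, Multiset.prod_coe, ← List.prod_ofFn]
      congr 1
      apply List.ext_getElem
      · rw [List.length_map, List.length_ofFn, hcard]
      · intro n h1 h2
        simp only [List.getElem_map, List.getElem_ofFn, List.get_eq_getElem, Fin.val_cast]
    rw [hp, opC_C_mul, h1]
    exact (quad_fin _ hc hy).C_mul ha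

lemma opC_comp_neg (c y : ℂ) (p : ℂ[X]) : opC (-c) y (p.comp (-X)) = (opC c y p).comp (-X) := by
  unfold opC
  simp only [derivative_comp, derivative_neg, derivative_X, add_comp, sub_comp, mul_comp, C_comp,
    derivative_mul, mul_neg, mul_one, neg_neg, derivative_one]
  simp only [map_mul, map_neg, map_ofNat, even_two, Even.neg_pow]
  ring

/-- the quadratic step -/
lemma RR.quad {p : ℂ[X]} (h : RR p) {c y : ℝ} (hy : (p.natDegree : ℝ) * y ^ 2 < c ^ 2) :
    RR (opC c y p) := by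
  have hc : c ≠ 0 := by
    rintro rfl
    have : 0 ≤ (p.natDegree : ℝ) * y ^ 2 := by positivity
    norm_num at hy
    linarith
  rcases lt_or_gt_of_ne hc with h1 | h1
  · have h2 : RR (p.comp (-X)) := by
      intro z hz
      rw [eval_comp] at hz
      have := h _ hz
      simpa using this
    have hdeg : (p.comp (-X)).natDegree = p.natDegree := by
      rw [natDegree_comp]
      simp
    have h3 := h2.quad_pos (c := -c) (y := y) (by linarith) (by rw [hdeg]; linarith [neg_sq c])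
    rw [Complex.ofReal_neg, opC_comp_neg] at h3
    intro z hz
    have h4 := h3 (-z) (by rw [eval_comp]; simpa using hz)
    simpa using h4
  · exact h.quad_pos h1 hy

end Pool.Agent.H466.JE
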