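import Pool.Agent.H466.JE.P3

/-!
# Jensen polynomials
-/

set_option autoImplicit false

open Polynomial Complex Filter Topology
open scoped ComplexConjugate

namespace Pool.Agent.H466.JE

/-- the (reversed) Jensen polynomial of a sequence -/
noncomputable def JJ (a : ℕ → ℂ) (d : ℕ) : ℂ[X] :=
  ∑ j ∈ Finset.range (d + 1), C ((d.choose j : ℂ) * a j) * X ^ (d - j)

lemma JJ_natDegree (a : ℕ → ℂ) (d : ℕ) : (JJ a d).natDegree ≤ d := by
  unfold JJ
  refine natDegree_sum_le_of_forall_le _ _ fun j _ => ?_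
  exact (natDegree_C_mul_X_pow_le _ _).trans (Nat.sub_le _ _)

lemma JJ_coeff (a : ℕ → ℂ) {d j : ℕ} (hj : j ≤ d) : (JJ a d).coeff (d - j) = (d.choose j : ℂ) * a j := by
  unfold JJ
  rw [finsetSum_coeff, Finset.sum_eq_single j]
  · rw [coeff_C_mul_X_pow, if_pos rfl]
  · intro i hi hne
    rw [coeff_C_mul_X_pow, if_neg]
    rw [Finset.mem_range] at hi
    omega
  · intro h
    exact absurd (Finset.mem_range.mpr (by omega)) h

lemma JJ_ext_coeff (p : ℂ[X]) {d : ℕ} (hp : p.natDegree ≤ d) (a : ℕ → ℂ)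
    (h : ∀ j, j ≤ d → p.coeff (d - j) = (d.choose j : ℂ) * a j) : p = JJ a d := by
  ext i
  rcases le_or_gt i d with hi | hi
  · have h1 := h (d - i) (Nat.sub_le _ _)
    have h2 := JJ_coeff a (d := d) (j := d - i) (Nat.sub_le _ _)
    have e : d - (d - i) = i := by omega
    rw [e] at h1 h2
    rw [h1, h2]
  · rw [coeff_eq_zero_of_natDegree_lt (by omega), coeff_eq_zero_of_natDegree_lt
      (lt_of_le_of_lt (JJ_natDegree a d) hi)]

lemma JJ_lin (a : ℕ → ℂ) (d : ℕ) (κ : ℂ) :
    JJ a d - C κ * derivative (JJ a d) = JJ (fun j => a j - κ * (j * a (j - 1))) d := by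
  refine JJ_ext_coeff _ ?_ _ fun j hj => ?_
  · refine (natDegree_sub_le _ _).trans (max_le (JJ_natDegree a d) ?_)
    refine (natDegree_C_mul_le _ _).trans ((natDegree_derivative_le _).trans ?_)
    have := JJ_natDegree a d
    omega
  · rw [coeff_sub, coeff_C_mul, coeff_derivative, JJ_coeff a hj]
    rcases Nat.eq_zero_or_pos j with rfl | hj0
    · rw [Nat.sub_zero, coeff_eq_zero_of_natDegree_lt (lt_of_le_of_lt (JJ_natDegree a d) (Nat.lt_succ_self d))]
      simp
    · have e : d - j + 1 = d - (j - 1) := by omega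
      rw [e, JJ_coeff a (by omega : j - 1 ≤ d)]
      have hc : ((d.choose (j - 1) : ℕ) : ℂ) * ((d - j : ℕ) + 1) = (d.choose j : ℂ) * j := by
        obtain ⟨i, rfl⟩ : ∃ i, j = i + 1 := ⟨j - 1, by omega⟩
        have h1 := Nat.choose_succ_right_eq d i
        rw [Nat.add_sub_cancel]
        have h2 : (d - (i + 1)) + 1 = d - i := by omega
        have h3 : (((d - (i + 1) : ℕ) : ℂ) + 1) = ((d - i : ℕ) : ℂ) := by
          rw [← h2]
          push_cast
          rfl
        rw [h3]
        exact_mod_cast h1.symm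
      linear_combination (-κ * a (j - 1)) * hc

lemma iter_mul_id {H : ℂ → ℂ} (hH : Differentiable ℂ H) (j : ℕ) :
    iteratedDeriv j (fun z => z * H z) = fun z => z * iteratedDeriv j H z + j * iteratedDeriv (j - 1) H z := by
  have hd : ∀ k, Differentiable ℂ (iteratedDeriv k H) := fun k =>
    (hH.contDiff (n := ⊤)).differentiable_iteratedDeriv k (by exact_mod_cast WithTop.coe_lt_top _)
  induction j with
  | zero => funext z; simp
  | succ j ih =>
    rw [iteratedDeriv_succ, ih]
    funext z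
    have h1 : HasDerivAt (fun z => z * iteratedDeriv j H z + j * iteratedDeriv (j - 1) H z)
        ((1 * iteratedDeriv j H z + z * deriv (iteratedDeriv j H) z) +
          j * deriv (iteratedDeriv (j - 1) H) z) z :=
      ((hasDerivAt_id z).mul (hd j z).hasDerivAt).add ((hd (j - 1) z).hasDerivAt.const_mul _)
    rw [h1.deriv, Nat.add_sub_cancel, ← iteratedDeriv_succ, ← iteratedDeriv_succ]
    rcases Nat.eq_zero_or_pos j with rfl | hj
    · simp
      ring
    · rw [Nat.sub_add_cancel hj]
      push_cast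
      ring

lemma iter_lin {H : ℂ → ℂ} (hH : Differentiable ℂ H) (κ : ℂ) (j : ℕ) :
    iteratedDeriv j (fun z => (1 - κ * z) * H z) 0 =
      iteratedDeriv j H 0 - κ * (j * iteratedDeriv (j - 1) H 0) := by
  have hd2 : Differentiable ℂ fun z => z * H z := differentiable_id.mul hH
  have e : (fun z => (1 - κ * z) * H z) = H - fun z => κ * (z * H z) := by
    funext z
    simp only [Pi.sub_apply]
    ring
  rw [e, iteratedDeriv_sub (hH.contDiff.contDiffAt) ((hd2.const_mul κ).contDiff.contDiffAt),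
    iteratedDeriv_const_mul (κ) (hd2.contDiff.contDiffAt), iter_mul_id hH]
  simp

/-- the Jensen polynomial of degree `d` of `H` has only real roots -/
def RJ (d : ℕ) (H : ℂ → ℂ) : Prop := RR (JJ (fun j => iteratedDeriv j H 0) d)

lemma JJ_mul_lin {H : ℂ → ℂ} (hH : Differentiable ℂ H) (κ : ℂ) (d : ℕ) :
    JJ (fun j => iteratedDeriv j (fun z => (1 - κ * z) * H z) 0) d =
      JJ (fun j => iteratedDeriv j H 0) d - C κ * derivative (JJ (fun j => iteratedDeriv j H 0) d) := by
  rw [JJ_lin]
  congr 1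
  funext j
  exact iter_lin hH κ j

lemma RJ.lin {H : ℂ → ℂ} (hH : Differentiable ℂ H) {d : ℕ} (h : RJ d H) (κ : ℝ) :
    RJ d (fun z => (1 - (κ : ℂ) * z) * H z) := by
  unfold RJ
  rw [JJ_mul_lin hH]
  exact RR.lin h κ

lemma RJ.quad {H : ℂ → ℂ} (hH : Differentiable ℂ H) {d : ℕ} (h : RJ d H) {u : ℂ}
    (hu : (d : ℝ) * u.im ^ 2 < u.re ^ 2) :
    RJ d (fun z => (1 - z / u) * ((1 - z / conj u) * H z)) := by
  have hre : u.re ≠ 0 := by
    rintro h0
    rw [h0] at hu
    have : 0 ≤ (d : ℝ) * u.im ^ 2 := by positivity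
    norm_num at hu
    linarith
  have hu0 : u ≠ 0 := by
    rintro rfl
    simp at hre
  have hcu0 : conj u ≠ 0 := (_root_.map_ne_zero _).mpr hu0
  have e1 : (fun z => (1 - z / u) * ((1 - z / conj u) * H z)) =
      fun z => (1 - u⁻¹ * z) * ((fun z => (1 - (conj u)⁻¹ * z) * H z) z) := by
    funext z
    ring
  unfold RJ
  have hd1 : Differentiable ℂ fun z => (1 - (conj u)⁻¹ * z) * H z := by fun_prop
  rw [e1, JJ_mul_lin hd1, JJ_mul_lin hH]
  set P := JJ (fun j => iteratedDeriv j H 0) d with hP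
  have hdeg : P.natDegree ≤ d := JJ_natDegree _ _
  have h1 : RR (opC (u.re : ℂ) (u.im : ℂ) P) := by
    refine RR.quad h (lt_of_le_of_lt ?_ hu)
    have : (P.natDegree : ℝ) ≤ d := by exact_mod_cast hdeg
    exact mul_le_mul_of_nonneg_right this (sq_nonneg _)
  have hn : ((u.re : ℂ) ^ 2 + (u.im : ℂ) ^ 2) = u * conj u := by
    rw [Complex.mul_conj, Complex.normSq_apply]
    push_cast
    ring
  have hs : (2 * (u.re : ℂ)) = u + conj u := by
    rw [Complex.add_conj]
    push_cast
    ring
  have h2 : P - C (conj u)⁻¹ * derivative P - C u⁻¹ * derivative (P - C (conj u)⁻¹ * derivative P) =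
      C ((u * conj u)⁻¹) * opC (u.re : ℂ) (u.im : ℂ) P := by
    unfold opC
    rw [hn, hs, derivative_sub, derivative_C_mul]
    have c1 : C (u * conj u)⁻¹ * C (u * conj u) = (1 : ℂ[X]) := by
      rw [← C_mul, inv_mul_cancel₀ (mul_ne_zero hu0 hcu0), C_1]
    have c2 : C (u * conj u)⁻¹ * C (u + conj u) = (C (conj u)⁻¹ + C u⁻¹ : ℂ[X]) := by
      rw [← C_mul, ← C_add]
      congr 1
      field_simp
    have c3 : (C (u * conj u)⁻¹ : ℂ[X]) = C u⁻¹ * C (conj u)⁻¹ := by
      rw [← C_mul]
      congr 1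
      field_simp
    linear_combination (-P) * c1 + (derivative P) * c2 - (derivative (derivative P)) * c3
  rw [h2]
  exact h1.C_mul (inv_ne_zero (mul_ne_zero hu0 hcu0))

/-- the factor of a pair of zeros -/
noncomputable def fac (u z : ℂ) : ℂ := if u.im = 0 then 1 - z / u else (1 - z / u) * (1 - z / conj u)

lemma fac_diff (u : ℂ) : Differentiable ℂ (fac u) := by
  unfold fac
  split_ifs <;> fun_prop

lemma RJ.fac {H : ℂ → ℂ} (hH : Differentiable ℂ H) {d : ℕ} (h : RJ d H) {u : ℂ}
    (hu : u.im ≠ 0 → (d : ℝ) * u.im ^ 2 < u.re ^ 2) : RJ d (fun z => fac u z * H z) := by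
  by_cases h0 : u.im = 0
  · have e : (fun z => JE.fac u z * H z) = fun z => (1 - ((u.re⁻¹ : ℝ) : ℂ) * z) * H z := by
      funext z
      have hu' : u = (u.re : ℂ) := by
        apply Complex.ext <;> simp [h0]
      unfold JE.fac
      rw [if_pos h0]
      conv_lhs => rw [hu']
      push_cast
      ring
    rw [e]
    exact h.lin hH _
  · have e : (fun z => JE.fac u z * H z) = fun z => (1 - z / u) * ((1 - z / conj u) * H z) := by
      funext z
      unfold JE.fac
      rw [if_neg h0, mul_assoc]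
    rw [e]
    exact h.quad hH (hu h0)

lemma prod_diff (l : List ℂ) : Differentiable ℂ fun z => (l.map fun u => fac u z).prod := by
  induction l with
  | nil => simp
  | cons u l ih =>
    simp only [List.map_cons, List.prod_cons]
    exact (fac_diff u).mul ih

lemma RJ.prod {H : ℂ → ℂ} (hH : Differentiable ℂ H) {d : ℕ} (h : RJ d H) (l : List ℂ)
    (hl : ∀ u ∈ l, u.im ≠ 0 → (d : ℝ) * u.im ^ 2 < u.re ^ 2) :
    RJ d (fun z => (l.map fun u => JE.fac u z).prod * H z) := by
  induction l with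
  | nil => simpa using h
  | cons u l ih =>
    have h1 := ih fun v hv => hl v (List.mem_cons_of_mem u hv)
    have h2 := h1.fac ((prod_diff l).mul hH) (hl u List.mem_cons_self)
    have e : (fun z => ((u :: l).map fun u => JE.fac u z).prod * H z) =
        fun z => JE.fac u z * ((l.map fun u => JE.fac u z).prod * H z) := by
      funext z
      rw [List.map_cons, List.prod_cons, mul_assoc]
    rw [e]
    exact h2

lemma RJ.exp (d : ℕ) (b : ℝ) {A : ℂ} (hA : A ≠ 0) : RJ d (fun z => A * cexp ((b : ℂ) * z)) := by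
  have h1 : (fun j => iteratedDeriv j (fun z => A * cexp ((b : ℂ) * z)) 0) = fun j => A * (b : ℂ) ^ j := by
    funext j
    rw [iteratedDeriv_const_mul (A) (by fun_prop)]
    rw [iteratedDeriv_cexp_const_mul]
    simp
  unfold RJ
  rw [h1]
  have h2 : JJ (fun j => A * (b : ℂ) ^ j) d = C A * (X + C (b : ℂ)) ^ d := by
    unfold JJ
    rw [add_comm X, add_pow, Finset.mul_sum]
    refine Finset.sum_congr rfl fun j _ => ?_
    rw [C_mul, C_mul, C_pow, C_eq_natCast]
    ring
  rw [h2]
  intro z hz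
  rw [eval_mul, eval_C, eval_pow, eval_add, eval_X, eval_C] at hz
  rcases mul_eq_zero.mp hz with h | h
  · exact absurd h hA
  · have h4 : z + (b : ℂ) = 0 := by
      by_contra hne
      exact pow_ne_zero d hne h
    have := congrArg Complex.im h4
    simpa using this

end Pool.Agent.H466.JE
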