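import Pool.Agent.H466.JE.P4
import Pool.Graph.R_seed8.H353R6.E14

/-!
# Jensen polynomials of real entire functions of order less than two
-/

set_option autoImplicit false

open Polynomial Complex Filter Topology Metric
open scoped ComplexConjugate

namespace Pool.Agent.H466.JE

open Pool.Agent.Helper242.KK

/-- splitting off all zeros in a disc, in conjugate pairs -/
lemma split_real {ρ M : ℝ} (hρ : 0 < ρ) (n : ℕ) : ∀ F : ℂ → ℂ, Differentiable ℂ F →
    (∀ z, F (conj z) = conj (F z)) → F 0 ≠ 0 →
    (∀ w ∈ closedBall (0 : ℂ) (2 * ρ), ‖F w‖ ≤ Real.exp M) →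
    (∑ᶠ u, (MeromorphicOn.divisor F (closedBall 0 ρ) u : ℝ) * 1) ≤ n →
    ∃ (l : List ℂ) (G : ℂ → ℂ), Differentiable ℂ G ∧ (∀ z, G (conj z) = conj (G z)) ∧ G 0 = F 0 ∧
      (∀ w ∈ closedBall (0 : ℂ) (2 * ρ), ‖G w‖ ≤ Real.exp M) ∧
      (∀ w, F w = (l.map fun u => fac u w).prod * G w) ∧
      (∀ u ∈ closedBall (0 : ℂ) ρ, G u ≠ 0) ∧ ∀ u ∈ l, F u = 0 := by
  induction n with
  | zero =>
    intro F hF hr h0 hb hn
    by_cases hz : ∀ u ∈ closedBall (0 : ℂ) ρ, F u ≠ 0
    · exact ⟨[], F, hF, hr, rfl, hb, fun w => by simp, hz, fun u hu => by simp at hu⟩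
    · exfalso
      push Not at hz
      obtain ⟨u, hu, hFu⟩ := hz
      obtain ⟨G, hG, hG0, hGb, hFG, hdiv⟩ := lnz_split hF hρ h0 hb hu hFu
      rw [lnz_sum_split ρ u (fun _ => 1) hdiv] at hn
      have h2 : 0 ≤ ∑ᶠ u, (MeromorphicOn.divisor G (closedBall 0 ρ) u : ℝ) * 1 := by
        refine finsum_nonneg (fun u => mul_nonneg ?_ zero_le_one)
        exact_mod_cast lnz_divisor_nonneg hG _ u
      norm_num at hn
      norm_num at h2
      linarith
  | succ n ih =>
    intro F hF hr h0 hb hn
    by_cases hz : ∀ u ∈ closedBall (0 : ℂ) ρ, F u ≠ 0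
    · exact ⟨[], F, hF, hr, rfl, hb, fun w => by simp, hz, fun u hu => by simp at hu⟩
    push Not at hz
    obtain ⟨u, hu, hFu⟩ := hz
    obtain ⟨G, hG, hG0, hGb, hFG, hdiv⟩ := lnz_split hF hρ h0 hb hu hFu
    rw [lnz_sum_split ρ u (fun _ => 1) hdiv] at hn
    have hu0 : u ≠ 0 := by
      rintro rfl
      exact h0 hFu
    have hcu0 : conj u ≠ 0 := (_root_.map_ne_zero _).mpr hu0
    by_cases hui : u.im = 0
    · have hcu : conj u = u := Complex.conj_eq_iff_im.mpr hui
      have hGr : ∀ z, G (conj z) = conj (G z) := by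
        have hA : AnalyticOnNhd ℂ (fun z => conj (G (conj z))) Set.univ := by
          have : Differentiable ℂ fun z => conj (G (conj z)) := by
            intro z
            have := (hG (conj z)).hasDerivAt.conj_conj
            rw [Complex.conj_conj] at this
            exact this.differentiableAt
          exact fun x _ => this.analyticAt x
        have hA2 : AnalyticOnNhd ℂ G Set.univ := fun x _ => hG.analyticAt x
        have hev : (fun z => conj (G (conj z))) =ᶠ[𝓝 0] G := by
          filter_upwards [isOpen_ne.mem_nhds (show (0 : ℂ) ≠ u from hu0.symm)] with z hz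
          have h1 := hr z
          rw [hFG, hFG, map_mul, map_sub, map_one, map_div₀, hcu] at h1
          have h2 : (1 : ℂ) - conj z / u ≠ 0 := by
            intro h
            apply hz
            have h3 : conj z = u := by
              rw [sub_eq_zero, eq_div_iff hu0, one_mul] at h
              exact h.symm
            rw [← hcu, ← h3, Complex.conj_conj]
          have h3 := mul_left_cancel₀ h2 h1
          rw [h3, Complex.conj_conj]
        have := hA.eqOn_of_preconnected_of_eventuallyEq hA2 isPreconnected_univ (Set.mem_univ 0) hev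
        intro z
        have h1 := this (Set.mem_univ (z))
        simp only at h1
        rw [← h1, Complex.conj_conj]
      obtain ⟨l, G', hG', hGr', hG0', hGb', hFG', hnz, hl⟩ := ih G hG hGr (by rw [hG0]; exact h0) hGb
        (by push_cast at hn; linarith)
      refine ⟨u :: l, G', hG', hGr', by rw [hG0', hG0], hGb', fun w => ?_, hnz, fun v hv => ?_⟩
      · rw [hFG w, hFG' w, List.map_cons, List.prod_cons, mul_assoc]
        congr 1
        unfold fac
        rw [if_pos hui]
      · rcases List.mem_cons.mp hv with rfl | hv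
        · exact hFu
        · rw [hFG v, hl v hv, mul_zero]
    · have hcne : conj u ≠ u := fun h => hui (Complex.conj_eq_iff_im.mp h)
      have hFcu : F (conj u) = 0 := by rw [hr, hFu, map_zero]
      have hGcu : G (conj u) = 0 := by
        rw [hFG] at hFcu
        refine (mul_eq_zero.mp hFcu).resolve_left ?_
        intro h
        rw [sub_eq_zero, eq_div_iff hu0, one_mul] at h
        exact hcne h.symm
      have hcumem : conj u ∈ closedBall (0 : ℂ) ρ := by
        rw [mem_closedBall, dist_zero_right, Complex.norm_conj]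
        rwa [mem_closedBall, dist_zero_right] at hu
      obtain ⟨G2, hG2, hG20, hG2b, hFG2, hdiv2⟩ := lnz_split hG hρ (by rw [hG0]; exact h0) hGb hcumem hGcu
      rw [lnz_sum_split ρ (conj u) (fun _ => 1) hdiv2] at hn
      have hFF : ∀ w, F w = ((1 - w / u) * (1 - w / conj u)) * G2 w := fun w => by
        rw [hFG w, hFG2 w, mul_assoc]
      have hGr : ∀ z, G2 (conj z) = conj (G2 z) := by
        have hA : AnalyticOnNhd ℂ (fun z => conj (G2 (conj z))) Set.univ := by
          have : Differentiable ℂ fun z => conj (G2 (conj z)) := by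
            intro z
            have := (hG2 (conj z)).hasDerivAt.conj_conj
            rw [Complex.conj_conj] at this
            exact this.differentiableAt
          exact fun x _ => this.analyticAt x
        have hA2 : AnalyticOnNhd ℂ G2 Set.univ := fun x _ => hG2.analyticAt x
        have hev : (fun z => conj (G2 (conj z))) =ᶠ[𝓝 0] G2 := by
          filter_upwards [isOpen_ne.mem_nhds (show (0 : ℂ) ≠ u from hu0.symm),
            isOpen_ne.mem_nhds (show (0 : ℂ) ≠ conj u from hcu0.symm)] with z hz hz2
          have h1 := hr z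
          rw [hFF, hFF, map_mul, map_mul, map_sub, map_sub, map_one, map_div₀, map_div₀,
            Complex.conj_conj, mul_comm (1 - conj z / conj u)] at h1
          have h2 : (1 : ℂ) - conj z / u ≠ 0 := by
            intro h
            apply hz2
            have h3 : conj z = u := by
              rw [sub_eq_zero, eq_div_iff hu0, one_mul] at h
              exact h.symm
            rw [← h3, Complex.conj_conj]
          have h2' : (1 : ℂ) - conj z / conj u ≠ 0 := by
            intro h
            apply hz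
            have h3 : conj z = conj u := by
              rw [sub_eq_zero, eq_div_iff hcu0, one_mul] at h
              exact h.symm
            rw [← Complex.conj_conj z, h3, Complex.conj_conj]
          have h3 := mul_left_cancel₀ (mul_ne_zero h2 h2') h1
          rw [h3, Complex.conj_conj]
        have := hA.eqOn_of_preconnected_of_eventuallyEq hA2 isPreconnected_univ (Set.mem_univ 0) hev
        intro z
        have h1 := this (Set.mem_univ (z))
        simp only at h1
        rw [← h1, Complex.conj_conj]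
      obtain ⟨l, G', hG', hGr', hG0', hGb', hFG', hnz, hl⟩ := ih G2 hG2 hGr
        (by rw [hG20, hG0]; exact h0) hG2b (by push_cast at hn; linarith)
      refine ⟨u :: l, G', hG', hGr', by rw [hG0', hG20, hG0], hGb', fun w => ?_, hnz, fun v hv => ?_⟩
      · rw [hFF w, hFG' w, List.map_cons, List.prod_cons, mul_assoc]
        unfold fac
        rw [if_neg hui]
        ring
      · rcases List.mem_cons.mp hv with rfl | hv
        · exact hFu
        · rw [hFF v, hl v hv, mul_zero]

/-- a function with small logarithmic derivative is close to one -/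
lemma near_one {K : ℂ → ℂ} {ε : ℝ} (hε : ε ≤ 1 / 2) (hK : DifferentiableOn ℂ K (ball 0 2))
    (h0 : K 0 = 1) (hd : ∀ z ∈ closedBall (0 : ℂ) 1, ‖deriv K z‖ ≤ ε * ‖K z‖) :
    ∀ z ∈ closedBall (0 : ℂ) 1, ‖K z - 1‖ ≤ 2 * ε := by
  have hsub : closedBall (0 : ℂ) 1 ⊆ ball 0 2 := closedBall_subset_ball (by norm_num)
  have hε0 : 0 ≤ ε := by
    have := hd 0 (mem_closedBall_self zero_le_one)
    rw [h0, norm_one, mul_one] at this
    exact (norm_nonneg _).trans this
  obtain ⟨z0, hz0, hmax⟩ := (isCompact_closedBall (0 : ℂ) 1).exists_isMaxOn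
    ⟨0, mem_closedBall_self zero_le_one⟩ (hK.continuousOn.mono hsub).norm
  have hmax' : ∀ z ∈ closedBall (0 : ℂ) 1, ‖K z‖ ≤ ‖K z0‖ := fun z hz => hmax hz
  have hb : ∀ z ∈ closedBall (0 : ℂ) 1, ‖K z - 1‖ ≤ ε * ‖K z0‖ := by
    intro z hz
    have h1 := (convex_closedBall (0 : ℂ) 1).norm_image_sub_le_of_norm_deriv_le (f := K)
      (C := ε * ‖K z0‖) (fun w hw => (hK w (hsub hw)).differentiableAt (isOpen_ball.mem_nhds (hsub hw)))
      (fun w hw => (hd w hw).trans (mul_le_mul_of_nonneg_left (hmax' w hw) hε0))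
      (mem_closedBall_self zero_le_one) hz
    rw [h0, sub_zero] at h1
    refine h1.trans ?_
    have h2 : ‖z‖ ≤ 1 := by simpa using hz
    have h3 : 0 ≤ ε * ‖K z0‖ := by positivity
    nlinarith
  have h2 : ‖K z0‖ ≤ 2 := by
    have h3 := hb z0 hz0
    have h4 : ‖K z0‖ ≤ ‖K z0 - 1‖ + 1 := by
      have := norm_add_le (K z0 - 1) 1
      rwa [sub_add_cancel, norm_one] at this
    nlinarith [norm_nonneg (K z0)]
  intro z hz
  refine (hb z hz).trans ?_
  nlinarith

/-- **Jensen polynomials and sectors** -/
theorem RJ_of_sector {F : ℂ → ℂ} (hF : Differentiable ℂ F) (hr : ∀ z, F (conj z) = conj (F z))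
    (h0 : F 0 ≠ 0) {E : ℝ → ℝ} (hE : Monotone E) (hEt : Tendsto (fun ρ => E ρ / ρ ^ 2) atTop (𝓝 0))
    (hb : ∀ w, ‖F w‖ ≤ Real.exp (E ‖w‖)) {d : ℕ}
    (hz : ∀ u, F u = 0 → u.im ≠ 0 → (d : ℝ) * u.im ^ 2 < u.re ^ 2) : RJ d F := by
  -- the approximations
  have hex : ∀ ρ : ℝ, 8 ≤ ρ → ∃ H : ℂ → ℂ, Differentiable ℂ H ∧ RJ d H ∧
      (128 * (E (2 * ρ) - Real.log ‖F 0‖ + 1) / ρ ^ 2 ≤ 1 / 2 →
      ∀ z ∈ closedBall (0 : ℂ) 1, ‖H z - F z‖ ≤ ‖F z‖ *
        (2 * (128 * (E (2 * ρ) - Real.log ‖F 0‖ + 1) / ρ ^ 2))) := by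
    intro ρ hρ8
    have hρ : 0 < ρ := by linarith
    have hbρ : ∀ z ∈ closedBall (0 : ℂ) (2 * ρ), ‖F z‖ ≤ Real.exp (E (2 * ρ)) := fun z hz => by
      rw [mem_closedBall, dist_zero_right] at hz
      exact (hb z).trans (Real.exp_le_exp.mpr (hE hz))
    obtain ⟨n, hn⟩ := exists_nat_ge
      (∑ᶠ u, (MeromorphicOn.divisor F (closedBall 0 ρ) u : ℝ) * 1)
    obtain ⟨l, G, hG, hGr, hG0, hGb, hFG, hnz, hl⟩ := split_real hρ n F hF hr h0 hbρ hn
    have hG0' : G 0 ≠ 0 := by rw [hG0]; exact h0
    -- `b` is real
    set b : ℂ := deriv G 0 / G 0 with hbdef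
    have hG0r : conj (G 0) = G 0 := by
      have := hGr 0
      rw [map_zero] at this
      exact this.symm
    have hdG0r : conj (deriv G 0) = deriv G 0 := by
      have h1 := (hG (conj 0)).hasDerivAt.conj_conj
      have e : (conj ∘ G ∘ conj) = G := by
        funext z
        simp only [Function.comp]
        rw [hGr, Complex.conj_conj]
      rw [e, Complex.conj_conj, map_zero] at h1
      exact h1.deriv.symm
    have hbr : b = ((b.re : ℝ) : ℂ) := by
      have : conj b = b := by rw [hbdef, map_div₀, hG0r, hdG0r]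
      exact (Complex.conj_eq_iff_re.mp this).symm
    set H : ℂ → ℂ := fun z => (l.map fun u => fac u z).prod * (G 0 * cexp ((b.re : ℂ) * z)) with hH
    have hd2 : Differentiable ℂ fun z => G 0 * cexp ((b.re : ℂ) * z) := by fun_prop
    refine ⟨H, (prod_diff l).mul hd2, ?_, fun hsmall z hzb => ?_⟩
    · refine RJ.prod hd2 (RJ.exp d b.re hG0') l fun u hu hui => hz u (hl u hu) hui
    · set K : ℂ → ℂ := fun z => G 0 * cexp ((b.re : ℂ) * z) / G z with hK
      have hsubρ : closedBall (0 : ℂ) 1 ⊆ closedBall 0 ρ := closedBall_subset_closedBall (by linarith)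
      have hsub2 : ball (0 : ℂ) 2 ⊆ closedBall 0 ρ := fun w hw => by
        rw [mem_ball, dist_zero_right] at hw
        rw [mem_closedBall, dist_zero_right]
        linarith
      have hKd : ∀ w ∈ closedBall (0 : ℂ) ρ, HasDerivAt K (K w * (b - deriv G w / G w)) w := by
        intro w hw
        have hGw := hnz w hw
        have h1 : HasDerivAt (fun z : ℂ => G 0 * cexp ((b.re : ℂ) * z))
            (G 0 * (cexp ((b.re : ℂ) * w) * (b.re : ℂ))) w := by
          have h2 : HasDerivAt (fun z : ℂ => (b.re : ℂ) * z) ((b.re : ℂ)) w := by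
            simpa using (hasDerivAt_id w).const_mul (b.re : ℂ)
          exact h2.cexp.const_mul (G 0)
        have h3 := h1.div (hG w).hasDerivAt hGw
        refine h3.congr_deriv ?_
        simp only [hK]
        rw [hbr]
        simp only [Complex.ofReal_re]
        field_simp
      have hcl := near_one (K := K) (ε := 128 * (E (2 * ρ) - Real.log ‖F 0‖ + 1) / ρ ^ 2) hsmall
        (fun w hw => (hKd w (hsub2 hw)).differentiableAt.differentiableWithinAt) (by
          simp only [hK]
          rw [mul_zero, Complex.exp_zero, mul_one, div_self hG0']) (fun w hw => by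
          rw [(hKd w (hsubρ hw)).deriv, norm_mul, mul_comm]
          refine mul_le_mul_of_nonneg_right ?_ (norm_nonneg _)
          have hw1 : ‖w‖ ≤ 1 := by simpa using hw
          have h4 := H353.E.slow_log hG hρ hnz hGb (z := 0) (z' := w) (by rw [norm_zero]; positivity)
            (by linarith)
          rw [hG0] at h4
          have h5 : deriv G 0 / F 0 = b := by rw [hbdef, hG0]
          rw [h5] at h4
          refine h4.trans ?_
          rw [zero_sub, norm_neg]
          have h6 : 0 ≤ 128 * (E (2 * ρ) - Real.log ‖F 0‖ + 1) / ρ ^ 2 := by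
            by_contra hneg
            push Not at hneg
            have h7 := H353.E.slow_log hG hρ hnz hGb (z := 0) (z' := 1) (by rw [norm_zero]; positivity)
              (by rw [norm_one]; linarith)
            rw [hG0, zero_sub, norm_neg, norm_one, mul_one] at h7
            linarith [norm_nonneg (deriv G 0 / F 0 - deriv G 1 / G 1)]
          nlinarith) z hzb
      have hGz := hnz z (hsubρ hzb)
      have e : H z - F z = F z * (K z - 1) := by
        simp only [hH, hK]
        rw [hFG z]
        field_simp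
      rw [e, norm_mul]
      exact mul_le_mul_of_nonneg_left hcl (norm_nonneg _)
  choose! H hHd hHJ hHF using hex
  -- limit
  obtain ⟨A, hA⟩ : ∃ A, ∀ z ∈ closedBall (0 : ℂ) 1, ‖F z‖ ≤ A :=
    (isCompact_closedBall (0 : ℂ) 1).exists_bound_of_continuousOn hF.continuous.continuousOn
  set ε : ℝ → ℝ := fun ρ => 128 * (E (2 * ρ) - Real.log ‖F 0‖ + 1) / ρ ^ 2 with hεdef
  have hεt : Tendsto ε atTop (𝓝 0) := by
    have h1 : Tendsto (fun ρ : ℝ => 2 * ρ) atTop atTop := tendsto_id.const_mul_atTop two_pos
    have h2 := (hEt.comp h1).const_mul 4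
    have h3 : Tendsto (fun ρ : ℝ => (-Real.log ‖F 0‖ + 1) / ρ ^ 2) atTop (𝓝 0) :=
      tendsto_const_nhds.div_atTop (tendsto_pow_atTop two_ne_zero)
    have h4 := (h2.add h3).const_mul 128
    simp only [mul_zero, add_zero] at h4
    refine h4.congr fun ρ => ?_
    simp only [Function.comp, hεdef]
    ring
  have hA0 : 0 ≤ A := (norm_nonneg _).trans (hA 0 (mem_closedBall_self zero_le_one))
  have hder : ∀ j, Tendsto (fun ρ => iteratedDeriv j (H ρ) 0) atTop (𝓝 (iteratedDeriv j F 0)) := by
    intro j
    rw [tendsto_iff_norm_sub_tendsto_zero]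
    have h1 : Tendsto (fun ρ => (j.factorial : ℝ) * (A * (2 * ε ρ)) / 1 ^ j) atTop (𝓝 0) := by
      have := ((hεt.const_mul 2).const_mul A).const_mul (j.factorial : ℝ)
      simpa using this
    refine squeeze_zero' (Eventually.of_forall fun _ => norm_nonneg _) ?_ h1
    filter_upwards [eventually_ge_atTop 8, hεt.eventually_le_const (show (0 : ℝ) < 1 / 2 by norm_num)]
      with ρ hρ8 hε1
    have h2 := hHF ρ hρ8 hε1
    have h3 := Complex.norm_iteratedDeriv_le_of_forall_mem_sphere_norm_le (c := (0 : ℂ)) (R := 1) (n := j)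
      (C := A * (2 * ε ρ)) (f := fun z => H ρ z - F z) one_pos
      ((hHd ρ hρ8).sub hF).diffContOnCl (fun z hz => ?_)
    · have e : iteratedDeriv j (fun z => H ρ z - F z) 0 = iteratedDeriv j (H ρ) 0 - iteratedDeriv j F 0 := by
        have := iteratedDeriv_sub (x := (0 : ℂ)) (n := j) ((hHd ρ hρ8).contDiff.contDiffAt)
          (hF.contDiff.contDiffAt)
        exact this
      rw [← e]
      exact h3
    · have hz' := sphere_subset_closedBall hz
      refine (h2 z hz').trans ?_
      have h4 := hA z hz'
      have h5 : 0 ≤ 2 * ε ρ := by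
        by_contra hneg
        push Not at hneg
        have h6 := h2 0 (mem_closedBall_self zero_le_one)
        have h7 : 0 < ‖F 0‖ := norm_pos_iff.mpr h0
        have h8 := norm_nonneg (H ρ 0 - F 0)
        have h9 : ‖F 0‖ * (2 * ε ρ) < 0 := mul_neg_of_pos_of_neg h7 hneg
        linarith
      exact mul_le_mul_of_nonneg_right h4 h5
  refine RR.lim (l := atTop) (p := fun ρ : ℝ => JJ (fun j => iteratedDeriv j (H ρ) 0) d)
    ((eventually_ge_atTop 8).mono fun ρ hρ => hHJ ρ hρ) ?_ fun z => ?_
  · intro hzero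
    have h1 := JJ_coeff (fun j => iteratedDeriv j F 0) (d := d) (j := 0) (Nat.zero_le _)
    rw [hzero] at h1
    simp at h1
    exact h0 h1.symm
  · have e : ∀ a : ℕ → ℂ, (JJ a d).eval z = ∑ j ∈ Finset.range (d + 1), (d.choose j : ℂ) * a j * z ^ (d - j) := by
      intro a
      unfold JJ
      rw [eval_finsetSum]
      simp
    simp only [e]
    refine tendsto_finsetSum _ fun j _ => ?_
    exact ((hder j).const_mul _).mul_const _

end Pool.Agent.H466.JE
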