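import Pool.Agent.H466.JE.P5

/-!
# Jensen polynomials at the central point of functions with a functional equation
-/

set_option autoImplicit false

open Polynomial Complex Filter Topology Metric
open scoped ComplexConjugate

namespace Pool.Agent.H466.JE

open H353.E

lemma JJ_eval (a : ℕ → ℂ) (d : ℕ) (z : ℂ) :
    (JJ a d).eval z = ∑ j ∈ Finset.range (d + 1), (d.choose j : ℂ) * a j * z ^ (d - j) := by
  unfold JJ
  rw [eval_finsetSum]
  simp

lemma iter_shift (F : ℂ → ℂ) (t : ℂ) (j : ℕ) (z : ℂ) :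
    iteratedDeriv j (fun z => F (z + t)) z = iteratedDeriv j F (z + t) := by
  have := iteratedDeriv_comp_add_const (n := j) (f := F) (s := t)
  exact congrFun this z

/-- `F(0) = 0` is allowed -/
theorem JJ_of_strip {F : ℂ → ℂ} (hF : Differentiable ℂ F) (hr : ∀ z, F (conj z) = conj (F z))
    (hne : ∃ z, F z ≠ 0) {E : ℝ → ℝ} (hE : Monotone E)
    (hEt : Tendsto (fun ρ => E ρ / ρ ^ 2) atTop (𝓝 0))
    (hb : ∀ w, ‖F w‖ ≤ Real.exp (E ‖w‖)) {d : ℕ} {b R : ℝ} (hR : 0 ≤ R) (hd : (d : ℝ) * b ^ 2 < R ^ 2)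
    (hz : ∀ u, F u = 0 → |u.im| ≤ b ∧ (u.im ≠ 0 → R ≤ |u.re|))
    (h0 : JJ (fun j => iteratedDeriv j F 0) d ≠ 0) : RJ d F := by
  have hdd : ∀ k, Differentiable ℂ (iteratedDeriv k F) := fun k =>
    (hF.contDiff (n := ⊤)).differentiable_iteratedDeriv k (by exact_mod_cast WithTop.coe_lt_top _)
  have hA : AnalyticAt ℂ F 0 := hF.analyticAt 0
  have hev : ∀ᶠ z in 𝓝[≠] (0 : ℂ), F z ≠ 0 := by
    rcases hA.eventually_eq_zero_or_eventually_ne_zero with h | h
    · exfalso
      obtain ⟨z, hz'⟩ := hne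
      apply hz'
      have hAn : AnalyticOnNhd ℂ F Set.univ := fun x _ => hF.analyticAt x
      exact hAn.eqOn_zero_of_preconnected_of_eventuallyEq_zero isPreconnected_univ (Set.mem_univ 0) h
        (Set.mem_univ z)
    · exact h
  have hev2 : ∀ᶠ t : ℝ in 𝓝[>] (0 : ℝ), F (t : ℂ) ≠ 0 := by
    have ht : Tendsto (fun t : ℝ => (t : ℂ)) (𝓝[>] 0) (𝓝[≠] 0) := by
      rw [tendsto_nhdsWithin_iff]
      constructor
      · have := Complex.continuous_ofReal.tendsto 0
        rw [Complex.ofReal_zero] at this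
        exact this.mono_left nhdsWithin_le_nhds
      · filter_upwards [self_mem_nhdsWithin] with t ht
        exact Complex.ofReal_ne_zero.mpr (ne_of_gt ht)
    exact ht.eventually hev
  have hev3 : ∀ᶠ t : ℝ in 𝓝[>] (0 : ℝ), (d : ℝ) * b ^ 2 < (R - t) ^ 2 ∧ 0 ≤ R - t := by
    have hR0 : 0 < R := by
      rcases hR.lt_or_eq with h | h
      · exact h
      · exfalso
        rw [← h] at hd
        have : 0 ≤ (d : ℝ) * b ^ 2 := by positivity
        norm_num at hd
        linarith
    have h1 : Tendsto (fun t : ℝ => (R - t) ^ 2) (𝓝[>] 0) (𝓝 ((R - 0) ^ 2)) := by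
      have : Continuous fun t : ℝ => (R - t) ^ 2 := by fun_prop
      exact (this.tendsto 0).mono_left nhdsWithin_le_nhds
    rw [sub_zero] at h1
    filter_upwards [h1.eventually_const_lt hd, Ioo_mem_nhdsGT hR0] with t h2 h3
    exact ⟨h2, by linarith [h3.2]⟩
  refine RR.lim (l := 𝓝[>] (0 : ℝ)) (p := fun t : ℝ => JJ (fun j => iteratedDeriv j F (t : ℂ)) d) ?_ h0
    fun z => ?_
  · filter_upwards [hev2, hev3, self_mem_nhdsWithin] with t h1 h2 h3
    have ht0 : 0 < t := h3
    have h4 := RJ_of_sector (F := fun z => F (z + t)) (hF.comp (by fun_prop)) (fun z => ?_)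
      (by simpa using h1) (E := fun ρ => E (ρ + t)) (fun x y hxy => hE (by linarith))
      (tend_shift hEt t) (fun w => ?_) (d := d) (fun u hu hui => ?_)
    · unfold RJ at h4
      have e : (fun j => iteratedDeriv j (fun z => F (z + (t : ℂ))) 0) =
          fun j => iteratedDeriv j F (t : ℂ) := by
        funext j
        rw [iter_shift, zero_add]
      rwa [e] at h4
    · rw [← hr, map_add, Complex.conj_ofReal]
    · refine (hb _).trans (Real.exp_le_exp.mpr (hE ?_))
      refine (norm_add_le _ _).trans ?_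
      rw [Complex.norm_real, Real.norm_eq_abs, abs_of_pos ht0]
    · obtain ⟨h5, h6⟩ := hz (u + t) hu
      rw [add_im, ofReal_im, add_zero] at h5 h6
      have h7 := h6 hui
      rw [add_re, ofReal_re] at h7
      have h8 : R - t ≤ |u.re| := by
        have := abs_add_le u.re t
        rw [abs_of_pos ht0] at this
        linarith
      have h9 : (R - t) ^ 2 ≤ u.re ^ 2 := by
        rw [← sq_abs u.re]
        exact pow_le_pow_left₀ h2.2 h8 2
      have h10 : u.im ^ 2 ≤ b ^ 2 := by
        rw [← sq_abs u.im]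
        exact pow_le_pow_left₀ (abs_nonneg _) h5 2
      calc (d : ℝ) * u.im ^ 2 ≤ d * b ^ 2 := by gcongr
        _ < (R - t) ^ 2 := h2.1
        _ ≤ u.re ^ 2 := h9
  · simp only [JJ_eval]
    refine tendsto_finsetSum _ fun j _ => ?_
    refine (Tendsto.const_mul _ ?_).mul_const _
    have h1 : Continuous fun t : ℝ => iteratedDeriv j F (t : ℂ) :=
      (hdd j).continuous.comp Complex.continuous_ofReal
    have h2 := (h1.tendsto 0).mono_left (nhdsWithin_le_nhds (s := Set.Ioi 0))
    rwa [Complex.ofReal_zero] at h2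

lemma eps_norm {Y : ℂ → ℂ} {ε : ℂ} (hfe : ∀ s, Y s = ε * conj (Y (1 - conj s))) (hne : ∃ z, Y z ≠ 0) :
    ‖ε‖ = 1 := by
  obtain ⟨z, hz⟩ := hne
  have h1 := hfe z
  rw [hfe (1 - conj z), map_mul, Complex.conj_conj, map_sub, map_one, Complex.conj_conj,
    sub_sub_cancel, ← mul_assoc, Complex.mul_conj] at h1
  have h2 : ((normSq ε : ℝ) : ℂ) = 1 := by
    have h3 : (((normSq ε : ℝ) : ℂ) - 1) * Y z = 0 := by linear_combination -h1
    have := (mul_eq_zero.mp h3).resolve_right hz
    linear_combination this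
  have h3 : normSq ε = 1 := by exact_mod_cast h2
  rw [Complex.normSq_eq_norm_sq] at h3
  have := norm_nonneg ε
  nlinarith

lemma iter_comp_I (Y : ℂ → ℂ) (hY : Differentiable ℂ Y) (c0 : ℂ) (j : ℕ) (z : ℂ) :
    iteratedDeriv j (fun z => Y (c0 + I * z)) z = I ^ j * iteratedDeriv j Y (c0 + I * z) := by
  have hdd : ∀ k, Differentiable ℂ (iteratedDeriv k Y) := fun k =>
    (hY.contDiff (n := ⊤)).differentiable_iteratedDeriv k (by exact_mod_cast WithTop.coe_lt_top _)
  induction j generalizing z with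
  | zero => simp
  | succ j ih =>
    rw [iteratedDeriv_succ]
    have e : iteratedDeriv j (fun z => Y (c0 + I * z)) = fun z => I ^ j * iteratedDeriv j Y (c0 + I * z) :=
      funext ih
    rw [e]
    have h1 : HasDerivAt (fun z : ℂ => c0 + I * z) I z := by
      simpa using ((hasDerivAt_id z).const_mul I).const_add c0
    have h2 := (((hdd j) (c0 + I * z)).hasDerivAt.comp z h1).const_mul (I ^ j)
    have h3 : HasDerivAt (fun z => I ^ j * iteratedDeriv j Y (c0 + I * z))
        (I ^ j * (deriv (iteratedDeriv j Y) (c0 + I * z) * I)) z := h2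
    rw [h3.deriv, iteratedDeriv_succ]
    ring

/-- Jensen polynomials at the centre -/
theorem jensen_of {Y : ℂ → ℂ} {b R : ℝ} (hY : GLc b Y) (hne : ∃ z, Y z ≠ 0) (hR : 0 ≤ R) {d : ℕ}
    (hd : (d : ℝ) * b ^ 2 < R ^ 2) (hline : ∀ s, Y s = 0 → |s.im| < R → s.re = 1 / 2)
    (h0 : JJ (fun j => I ^ j * iteratedDeriv j Y (1 / 2)) d ≠ 0) :
    RR (JJ (fun j => I ^ j * iteratedDeriv j Y (1 / 2)) d) := by
  obtain ⟨ε, hfe⟩ := hY.fe
  obtain ⟨E, hE, hEt, hb⟩ := hY.slow
  have hε := eps_norm hfe hne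
  have hε0 : ε ≠ 0 := by
    rintro rfl
    simp at hε
  obtain ⟨c, hc⟩ : ∃ c : ℂ, c ^ 2 = ε⁻¹ := ⟨ε⁻¹ ^ ((2 : ℂ)⁻¹), by
    rw [← Complex.cpow_nat_mul]
    simp⟩
  have hc1 : ‖c‖ = 1 := by
    have h1 := congrArg norm hc
    rw [norm_pow, norm_inv, hε, inv_one] at h1
    have := norm_nonneg c
    nlinarith
  have hc0 : c ≠ 0 := by
    rintro rfl
    simp at hc1
  have hcε : c * ε = conj c := by
    have h1 : c * conj c = 1 := by
      rw [Complex.mul_conj, Complex.normSq_eq_norm_sq, hc1]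
      simp
    have h2 : c * (c * ε) = 1 := by
      rw [← mul_assoc, ← sq, hc, inv_mul_cancel₀ hε0]
    exact mul_left_cancel₀ hc0 (h2.trans h1.symm)
  set F : ℂ → ℂ := fun z => c * Y (1 / 2 + I * z) with hF
  have hFd : Differentiable ℂ F := (hY.diff.comp (by fun_prop)).const_mul c
  have hiter : ∀ j, iteratedDeriv j F 0 = c * (I ^ j * iteratedDeriv j Y (1 / 2)) := by
    intro j
    have h1 : ContDiffAt ℂ j (fun z => Y (1 / 2 + I * z)) 0 :=
      (hY.diff.comp (by fun_prop : Differentiable ℂ fun z : ℂ => 1 / 2 + I * z)).contDiff.contDiffAt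
    have h2 := iteratedDeriv_const_mul c h1
    rw [iter_comp_I Y hY.diff, mul_zero, add_zero] at h2
    exact h2
  have hJ : JJ (fun j => iteratedDeriv j F 0) d = C c * JJ (fun j => I ^ j * iteratedDeriv j Y (1 / 2)) d := by
    unfold JJ
    rw [Finset.mul_sum]
    refine Finset.sum_congr rfl fun j _ => ?_
    simp only [hiter, C_mul]
    ring
  have hmain : RJ d F := by
    refine JJ_of_strip hFd (fun z => ?_) ?_ (E := fun ρ => E (ρ + 1)) (fun x y hxy => hE (by linarith))
      (tend_shift hEt 1) (fun w => ?_) hR hd (fun u hu => ?_) ?_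
    · simp only [hF]
      rw [map_mul, ← hcε, hfe (1 / 2 + I * conj z)]
      have e1 : 1 - conj (1 / 2 + I * conj z) = 1 / 2 + I * z := by
        rw [map_add, map_mul, Complex.conj_conj, Complex.conj_I, map_div₀, map_one, map_ofNat]
        ring
      rw [e1]
      ring
    · obtain ⟨z, hz⟩ := hne
      refine ⟨(z - 1 / 2) / I, ?_⟩
      simp only [hF]
      rw [mul_div_cancel₀ _ I_ne_zero, add_sub_cancel]
      exact mul_ne_zero hc0 hz
    · simp only [hF]
      rw [norm_mul, hc1, one_mul]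
      refine (hb _).trans (Real.exp_le_exp.mpr (hE ?_))
      refine (norm_add_le _ _).trans ?_
      rw [norm_mul, Complex.norm_I, one_mul]
      have : ‖(1 / 2 : ℂ)‖ = 1 / 2 := by simp
      linarith
    · have h1 : Y (1 / 2 + I * u) = 0 := (mul_eq_zero.mp hu).resolve_left hc0
      have hre : (1 / 2 + I * u).re = 1 / 2 - u.im := by simp; ring
      have him : (1 / 2 + I * u).im = u.re := by simp
      have h2 := hY.zer _ h1
      have h3 := hY.lower hne h1
      rw [hre] at h2 h3
      refine ⟨abs_le.mpr ⟨by linarith, by linarith⟩, fun hui => ?_⟩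
      by_contra hcon
      push Not at hcon
      have h4 := hline _ h1 (by rw [him]; exact hcon)
      rw [hre] at h4
      exact hui (by linarith)
    · rw [hJ]
      exact mul_ne_zero (C_ne_zero.mpr hc0) h0
  unfold RJ at hmain
  rw [hJ] at hmain
  exact hmain.of_C_mul

end Pool.Agent.H466.JE
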