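import Pool.Agent.H466.JE.P6
import Pool.Graph.R_seed8.H353R7.G4

/-!
# Jensen polynomials of automorphic L-functions
-/

set_option autoImplicit false

open Polynomial Complex Filter Topology Metric
open scoped ComplexConjugate

namespace Pool.Agent.H466.JE

open H353.E H353.F

lemma iter_iter (f : ℂ → ℂ) (n j : ℕ) : iteratedDeriv j (iteratedDeriv n f) = iteratedDeriv (n + j) f := by
  rw [iteratedDeriv_eq_iterate, iteratedDeriv_eq_iterate, iteratedDeriv_eq_iterate,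
    ← Function.iterate_add_apply, add_comm]

lemma datum_GLc {m : ℕ} (hm : 1 ≤ m) {θ : ℝ} (hθ1 : θ ≤ 1 / 2) {N : ℝ} {μ : Fin m → ℂ}
    {α : Fin m → ℕ → ℂ} {ε : ℂ} {Λ : ℂ → ℂ} (d : DatumT θ N μ α ε Λ) :
    GLc 1 (fun z => (N : ℂ) ^ (z / 2) * Λ z) := by
  have hm' : (1 : ℝ) ≤ m := by exact_mod_cast hm
  obtain ⟨B1, hB1, hBc⟩ := euler_close m
  set C : ℝ := 6 * m with hC
  have hC1 : 1 ≤ C := by rw [hC]; linarith
  have hN := d.one_le
  have hN0 : 0 < N := by linarith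
  have hNc : (N : ℂ) ≠ 0 := by exact_mod_cast hN0.ne'
  set X : ℂ → ℂ := fun z => (N : ℂ) ^ (z / 2) * Λ z with hX
  have gp := gaf_GP hm hN d.re_le
  have hnorm : ∀ j, ∀ p : ℕ, p.Prime → ‖α j p‖ ≤ Real.sqrt p := fun j p hp => by
    refine (d.norm_le j p hp).trans ?_
    rw [Real.sqrt_eq_rpow]
    have : (1 : ℝ) ≤ p := by exact_mod_cast hp.one_le
    exact Real.rpow_le_rpow_of_exponent_le this hθ1
  have hXd : Differentiable ℂ X := by
    refine Differentiable.mul (fun z => ?_) d.entire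
    exact (((hasDerivAt_id z).div_const 2).const_cpow (c := (N : ℂ)) (Or.inl hNc)).differentiableAt
  have hXe : ∀ z : ℂ, 1 + θ < z.re → X z = gaf N μ z * euler α z := fun z hz => by
    simp only [hX, gaf]
    rw [d.euler z hz, mul_assoc]
    rfl
  have hclose : ∀ z : ℂ, 4 ≤ z.re → ‖X z - gaf N μ z‖ ≤ B1 * (1 / 2 : ℝ) ^ z.re * ‖gaf N μ z‖ :=
    fun z hz => by
      have e : X z - gaf N μ z = (euler α z - 1) * gaf N μ z := by
        rw [hXe z (by linarith)]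
        ring
      rw [e, norm_mul]
      exact mul_le_mul_of_nonneg_right (hBc α hnorm z hz) (norm_nonneg _)
  have hfe : ∀ z : ℂ, X z = ε * conj (X (1 - conj z)) := fun z => by
    simp only [hX]
    rw [map_mul, conj_cpow_real hN0]
    have e1 : conj ((1 - conj z) / 2) = (1 - z) / 2 := by
      rw [map_div₀, map_sub, Complex.conj_conj, map_one, map_ofNat]
    have e2 : (N : ℂ) ^ (z / 2) * (N : ℂ) ^ (1 / 2 - z) = (N : ℂ) ^ ((1 - z) / 2) := by
      rw [← cpow_add _ _ hNc]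
      congr 1
      ring
    rw [e1, d.fe z, ← e2]
    ring
  have hbdd : ∃ M, ∀ z : ℂ, -3 ≤ z.re → z.re ≤ 4 → ‖X z‖ ≤ Real.exp (M * (1 + |z.im|)) := by
    obtain ⟨M, hM⟩ := d.bdd (-3) 4
    refine ⟨Real.log (N ^ (2 : ℝ)) + M, fun z h1 h2 => ?_⟩
    simp only [hX]
    rw [norm_mul, Complex.norm_cpow_eq_rpow_re_of_pos hN0]
    have e : (z / 2).re = z.re / 2 := by
      rw [show (2 : ℂ) = ((2 : ℝ) : ℂ) by norm_num, Complex.div_ofReal_re]
    rw [e]
    have h3 : N ^ (z.re / 2) ≤ N ^ (2 : ℝ) := Real.rpow_le_rpow_of_exponent_le hN (by linarith)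
    have h4 := hM z h1 h2
    have h5 : 0 < N ^ (2 : ℝ) := Real.rpow_pos_of_pos hN0 _
    have h6 : 1 ≤ N ^ (2 : ℝ) := Real.one_le_rpow hN (by norm_num)
    refine (mul_le_mul h3 h4 (norm_nonneg _) h5.le).trans ?_
    rw [add_mul, Real.exp_add]
    refine mul_le_mul_of_nonneg_right ?_ (Real.exp_pos _).le
    have h7 := Real.log_nonneg h6
    have h8 := abs_nonneg z.im
    calc N ^ (2 : ℝ) = Real.exp (Real.log (N ^ (2 : ℝ))) := (Real.exp_log h5).symm
      _ ≤ Real.exp (Real.log (N ^ (2 : ℝ)) * (1 + |z.im|)) := by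
        apply Real.exp_le_exp.mpr
        nlinarith
  have L : LD (6 * m) ((1 + B1) * Real.exp (6 * m * 7)) (fun K => 4 * Real.exp (2 * |K| + 10)) X
      (gaf N μ) (gaD N μ) :=
    LD_of gp hC1 hB1 hXd hclose ⟨ε, d.norm_eq, hfe⟩ hbdd
  have hzer : ∀ z, X z = 0 → z.re ≤ 3 / 2 := fun z hz => by
    by_contra hcon
    push Not at hcon
    rw [hXe z (by linarith)] at hz
    rcases mul_eq_zero.mp hz with h | h
    · exact gp.ne z (by linarith) h
    · exact euler_ne hnorm hcon h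
  have hcond1 : 1 ≤ N * ∏ j, (1 + ‖μ j‖) := by
    have h1 : 1 ≤ ∏ j, (1 + ‖μ j‖) := by
      refine Finset.prod_induction _ (fun x => (1 : ℝ) ≤ x) (fun a b ha hb => ?_) le_rfl fun j _ => ?_
      · nlinarith
      · linarith [norm_nonneg (μ j)]
    nlinarith
  have hs := slow_of L (a := Real.log (N * ∏ j, (1 + ‖μ j‖)) + 7 * m) (k := m)
    (by have := Real.log_nonneg hcond1; linarith) (by linarith) (fun z hz => by
      have := gaD_norm hN d.re_le hz
      linarith)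
  exact ⟨hXd, ⟨ε, hfe⟩, hs, fun s h => by
    have := hzer s h
    linarith⟩

/-- no derivative vanishes identically -/
lemma datum_iter_ne {m : ℕ} (hm : 1 ≤ m) {θ : ℝ} (hθ0 : 0 ≤ θ) (hθ1 : θ ≤ 1 / 2) {N : ℝ} {μ : Fin m → ℂ}
    {α : Fin m → ℕ → ℂ} {ε : ℂ} {Λ : ℂ → ℂ} (d : DatumT θ N μ α ε Λ) (n : ℕ) :
    ∃ z, iteratedDeriv n (fun z => (N : ℂ) ^ (z / 2) * Λ z) z ≠ 0 := by
  obtain ⟨C0, H⟩ := datum_sharp m hm hθ0 hθ1 one_pos
  by_contra hcon
  push Not at hcon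
  have hall : ∀ j, iteratedDeriv (n + j) (fun z => (N : ℂ) ^ (z / 2) * Λ z) = fun _ => 0 := by
    intro j
    induction j with
    | zero => exact funext hcon
    | succ j ih =>
      rw [← add_assoc, iteratedDeriv_succ, ih]
      simp
  obtain ⟨M, hM⟩ := exists_nat_ge (((1 + 2 * θ) / 4 + 1) * Real.log (N * ∏ j, (1 + ‖(((0 : ℂ).im : ℝ) : ℂ) * I - μ j‖)) + C0)
  have h1 := (H N μ α ε Λ d (n + M) 0 (hM.trans (by push_cast; linarith [(Nat.cast_nonneg n : (0 : ℝ) ≤ n)]))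
    (by rw [hall])).2
  apply h1
  rw [add_assoc, hall]

/-- **Jensen polynomials of automorphic L-functions** -/
theorem datum_jensen (m : ℕ) (hm : 1 ≤ m) {θ η : ℝ} (hθ0 : 0 ≤ θ) (hθ1 : θ ≤ 1 / 2) (hη : 0 < η) :
    ∃ C0 : ℝ, ∀ (N : ℝ) (μ : Fin m → ℂ) (α : Fin m → ℕ → ℂ) (ε : ℂ) (Λ : ℂ → ℂ),
    DatumT θ N μ α ε Λ → ∀ (d n : ℕ), 1 ≤ d →
    ((1 + 2 * θ) / 4 + η) * (Real.log (N * ∏ j, (1 + ‖μ j‖)) + m / 2 * Real.log d) + C0 ≤ n →
    RR (JJ (fun j => I ^ j * iteratedDeriv (n + j) (fun z => (N : ℂ) ^ (z / 2) * Λ z) (1 / 2)) d) := by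
  obtain ⟨C0, H⟩ := datum_sharp m hm hθ0 hθ1 hη
  refine ⟨((1 + 2 * θ) / 4 + η) * (m * Real.log 3) + C0, fun N μ α ε Λ D d n hd hn => ?_⟩
  have hcl := datum_GLc hm hθ1 D
  have hne := datum_iter_ne hm hθ0 hθ1 D
  have hY := hcl.iter hne n
  have hN := D.one_le
  have hd' : (1 : ℝ) ≤ d := by exact_mod_cast hd
  have hsd : 1 ≤ Real.sqrt d := Real.one_le_sqrt.mpr hd'
  set R : ℝ := Real.sqrt d + 1 with hR
  have hline : ∀ s, iteratedDeriv n (fun z => (N : ℂ) ^ (z / 2) * Λ z) s = 0 → |s.im| < R →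
      s.re = 1 / 2 ∧ iteratedDeriv (n + 1) (fun z => (N : ℂ) ^ (z / 2) * Λ z) s ≠ 0 := by
    intro s hs him
    refine H N μ α ε Λ D n s (le_trans ?_ hn) hs
    have h1 : N * ∏ j, (1 + ‖(s.im : ℂ) * I - μ j‖) ≤ (N * ∏ j, (1 + ‖μ j‖)) * (3 * Real.sqrt d) ^ m := by
      have h2 : ∏ j, (1 + ‖(s.im : ℂ) * I - μ j‖) ≤ ∏ j, ((1 + ‖μ j‖) * (3 * Real.sqrt d)) := by
        refine Finset.prod_le_prod (fun j _ => by positivity) fun j _ => ?_
        have h3 : ‖(s.im : ℂ) * I - μ j‖ ≤ |s.im| + ‖μ j‖ := by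
          refine (norm_sub_le _ _).trans ?_
          rw [norm_mul, Complex.norm_I, mul_one, Complex.norm_real, Real.norm_eq_abs]
        have h4 := norm_nonneg (μ j)
        have h5 := abs_nonneg s.im
        nlinarith
      rw [Finset.prod_mul_distrib, Finset.prod_const, Finset.card_univ, Fintype.card_fin] at h2
      have h6 : 0 ≤ N := by linarith
      calc N * ∏ j, (1 + ‖(s.im : ℂ) * I - μ j‖) ≤ N * ((∏ j, (1 + ‖μ j‖)) * (3 * Real.sqrt d) ^ m) := by
            gcongr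
        _ = _ := by ring
    have hpos1 : 0 < N * ∏ j, (1 + ‖(s.im : ℂ) * I - μ j‖) := by
      have : 0 < ∏ j, (1 + ‖(s.im : ℂ) * I - μ j‖) := Finset.prod_pos fun j _ => by positivity
      have : 0 < N := by linarith
      positivity
    have hpos2 : 0 < N * ∏ j, (1 + ‖μ j‖) := by
      have : 0 < ∏ j, (1 + ‖μ j‖) := Finset.prod_pos fun j _ => by positivity
      have : 0 < N := by linarith
      positivity
    have hsd0 : 0 < Real.sqrt d := by linarith
    have h2 := Real.log_le_log hpos1 h1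
    rw [Real.log_mul hpos2.ne' (by positivity), Real.log_pow, Real.log_mul (by norm_num) hsd0.ne',
      Real.log_sqrt (by linarith)] at h2
    have h3 : 0 ≤ (1 + 2 * θ) / 4 + η := by linarith
    calc ((1 + 2 * θ) / 4 + η) * Real.log (N * ∏ j, (1 + ‖(s.im : ℂ) * I - μ j‖)) + C0
        ≤ ((1 + 2 * θ) / 4 + η) * (Real.log (N * ∏ j, (1 + ‖μ j‖)) + m * (Real.log 3 + Real.log d / 2)) + C0 := by
          gcongr
      _ = _ := by ring
  have h12 := hline (1 / 2)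
  have e : ∀ j, iteratedDeriv j (iteratedDeriv n (fun z => (N : ℂ) ^ (z / 2) * Λ z)) (1 / 2) =
      iteratedDeriv (n + j) (fun z => (N : ℂ) ^ (z / 2) * Λ z) (1 / 2) := fun j => by rw [iter_iter]
  have h0 : JJ (fun j => I ^ j * iteratedDeriv j (iteratedDeriv n (fun z => (N : ℂ) ^ (z / 2) * Λ z)) (1 / 2)) d
      ≠ 0 := by
    intro hzero
    have c0 := JJ_coeff (fun j => I ^ j * iteratedDeriv j (iteratedDeriv n (fun z => (N : ℂ) ^ (z / 2) * Λ z)) (1 / 2))
      (d := d) (j := 0) (Nat.zero_le _)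
    have c1 := JJ_coeff (fun j => I ^ j * iteratedDeriv j (iteratedDeriv n (fun z => (N : ℂ) ^ (z / 2) * Λ z)) (1 / 2))
      (d := d) (j := 1) hd
    rw [hzero] at c0 c1
    simp only [coeff_zero, Nat.choose_zero_right, Nat.cast_one, pow_zero, one_mul, pow_one,
      Nat.choose_one_right] at c0 c1
    rw [iteratedDeriv_zero] at c0
    rw [e 1] at c1
    have h3 := (h12 c0.symm (by simp; linarith)).2
    have hdc : (d : ℂ) ≠ 0 := by exact_mod_cast (by omega : d ≠ 0)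
    exact mul_ne_zero hdc (mul_ne_zero I_ne_zero h3) c1.symm
  have h4 := jensen_of hY (hne n) (R := R) (by linarith) (d := d) (by
    have := Real.sq_sqrt (by linarith : (0 : ℝ) ≤ d)
    rw [hR]
    nlinarith) (fun s hs him => (hline s hs him).1) h0
  simp only [e] at h4
  exact h4

end Pool.Agent.H466.JE
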