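import Pool.Agent.H466.JE.P7

/-!
# The Riemann hypothesis in terms of Jensen polynomials
-/

set_option autoImplicit false

open Polynomial Complex Filter Topology Metric
open scoped ComplexConjugate

namespace Pool.Agent.H466.JE

open H353.E H353.F

/-- the Jensen polynomial (not reversed) -/
noncomputable def J0 (a : ℕ → ℂ) (d : ℕ) : ℂ[X] :=
  ∑ j ∈ Finset.range (d + 1), C ((d.choose j : ℂ) * a j) * X ^ j

lemma J0_eval (a : ℕ → ℂ) (d : ℕ) (z : ℂ) :
    (J0 a d).eval z = ∑ j ∈ Finset.range (d + 1), (d.choose j : ℂ) * a j * z ^ j := by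
  unfold J0
  rw [eval_finsetSum]
  simp

lemma J0_JJ (a : ℕ → ℂ) (d : ℕ) {z : ℂ} (hz : z ≠ 0) :
    (J0 a d).eval z = z ^ d * (JJ a d).eval z⁻¹ := by
  rw [J0_eval, JJ_eval, Finset.mul_sum]
  refine Finset.sum_congr rfl fun j hj => ?_
  have hj' : j ≤ d := Nat.lt_succ_iff.mp (Finset.mem_range.mp hj)
  have e : z ^ d = z ^ j * z ^ (d - j) := by rw [← pow_add]; congr 1; omega
  rw [e, inv_pow]
  field_simp

lemma J0_coeff (a : ℕ → ℂ) {d j : ℕ} (hj : j ≤ d) : (J0 a d).coeff j = (d.choose j : ℂ) * a j := by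
  unfold J0
  rw [finsetSum_coeff, Finset.sum_eq_single j]
  · rw [coeff_C_mul_X_pow, if_pos rfl]
  · intro i hi hne
    rw [coeff_C_mul_X_pow, if_neg (Ne.symm hne)]
  · intro h
    exact absurd (Finset.mem_range.mpr (by omega)) h

lemma J0_zero_iff (a : ℕ → ℂ) (d : ℕ) : J0 a d = 0 ↔ JJ a d = 0 := by
  have h1 : J0 a d = 0 ↔ ∀ j, j ≤ d → (d.choose j : ℂ) * a j = 0 := by
    constructor
    · intro h j hj
      rw [← J0_coeff a hj, h, coeff_zero]
    · intro h
      unfold J0
      refine Finset.sum_eq_zero fun j hj => ?_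
      rw [h j (Nat.lt_succ_iff.mp (Finset.mem_range.mp hj)), C_0, zero_mul]
  have h2 : JJ a d = 0 ↔ ∀ j, j ≤ d → (d.choose j : ℂ) * a j = 0 := by
    constructor
    · intro h j hj
      rw [← JJ_coeff a hj, h, coeff_zero]
    · intro h
      unfold JJ
      refine Finset.sum_eq_zero fun j hj => ?_
      rw [h j (Nat.lt_succ_iff.mp (Finset.mem_range.mp hj)), C_0, zero_mul]
  rw [h1, h2]

lemma inv_im_zero {z : ℂ} (h : (z⁻¹).im = 0) : z.im = 0 := by
  have h1 : z = (z⁻¹)⁻¹ := (inv_inv z).symm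
  rw [h1, Complex.inv_im, h]
  simp

lemma RR_J0 {a : ℕ → ℂ} {d : ℕ} (h : RR (JJ a d)) : RR (J0 a d) := by
  intro z hz
  by_cases h0 : z = 0
  · rw [h0, Complex.zero_im]
  · rw [J0_JJ a d h0] at hz
    have h1 := (mul_eq_zero.mp hz).resolve_left (pow_ne_zero d h0)
    exact inv_im_zero (h _ h1)

/-- if all zeros are on the line then all Jensen polynomials are hyperbolic -/
theorem of_rh {X : ℂ → ℂ} {b : ℝ} (hX : GLc b X) (hne : ∀ n, ∃ z, iteratedDeriv n X z ≠ 0)
    (hz : ∀ s, X s = 0 → s.re = 1 / 2) (d n : ℕ) :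
    J0 (fun j => I ^ j * iteratedDeriv (n + j) X (1 / 2)) d = 0 ∨
      RR (J0 (fun j => I ^ j * iteratedDeriv (n + j) X (1 / 2)) d) := by
  have hX0 : GLc 0 X := ⟨hX.diff, hX.fe, hX.slow, fun s hs => by rw [hz s hs, add_zero]⟩
  have hY := hX0.iter hne n
  by_cases h0 : J0 (fun j => I ^ j * iteratedDeriv (n + j) X (1 / 2)) d = 0
  · exact Or.inl h0
  · right
    apply RR_J0
    have e : ∀ j, iteratedDeriv j (iteratedDeriv n X) (1 / 2) = iteratedDeriv (n + j) X (1 / 2) :=
      fun j => by rw [iter_iter]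
    have h1 : JJ (fun j => I ^ j * iteratedDeriv j (iteratedDeriv n X) (1 / 2)) d ≠ 0 := by
      simp only [e]
      exact fun h => h0 ((J0_zero_iff _ _).mpr h)
    have h2 := jensen_of hY (hne n) (R := 1) zero_le_one (d := d) (by norm_num) (fun s hs _ => by
      have h3 := hY.zer s hs
      have h4 := hY.lower (hne n) hs
      linarith) h1
    simp only [e] at h2
    exact h2

/-- the converse -/
theorem rh_of {Z : ℂ → ℂ} (hX : Differentiable ℂ Z) (hne : ∃ z, Z z ≠ 0)
    (h : ∀ d, J0 (fun j => I ^ j * iteratedDeriv j Z (1 / 2)) d = 0 ∨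
      RR (J0 (fun j => I ^ j * iteratedDeriv j Z (1 / 2)) d)) {s : ℂ} (hs : Z s = 0) : s.re = 1 / 2 := by
  set F : ℂ → ℂ := fun z => Z (1 / 2 + I * z) with hF
  have hFd : Differentiable ℂ F := hX.comp (by fun_prop)
  set a : ℕ → ℂ := fun j => I ^ j * iteratedDeriv j Z (1 / 2) with ha
  have haF : ∀ j, a j = iteratedDeriv j F 0 := fun j => by
    simp only [hF, ha]
    rw [iter_comp_I Z hX, mul_zero, add_zero]
  have hFne : ∃ z, F z ≠ 0 := by
    obtain ⟨z, hz⟩ := hne
    refine ⟨(z - 1 / 2) / I, ?_⟩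
    simp only [hF]
    rw [mul_div_cancel₀ _ I_ne_zero, add_sub_cancel]
    exact hz
  have htay : ∀ z, HasSum (fun j : ℕ => (j.factorial : ℂ)⁻¹ * a j * z ^ j) (F z) := by
    intro z
    have h1 := Complex.hasSum_taylorSeries_of_entire hFd 0 z
    simp only [sub_zero] at h1
    have e : (fun j : ℕ => (j.factorial : ℂ)⁻¹ * a j * z ^ j) =
        fun n : ℕ => (n.factorial : ℂ)⁻¹ • z ^ n • iteratedDeriv n F 0 := by
      funext j
      rw [haF, smul_eq_mul, smul_eq_mul]
      ring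
    rw [e]
    exact h1
  -- some coefficient does not vanish
  obtain ⟨j0, hj0⟩ : ∃ j0, a j0 ≠ 0 := by
    by_contra hcon
    push Not at hcon
    obtain ⟨z, hz⟩ := hFne
    apply hz
    have h1 := htay z
    simp only [hcon, mul_zero, zero_mul] at h1
    exact h1.unique hasSum_zero
  -- the scaled polynomials
  set q : ℕ → ℂ[X] := fun d => (J0 a d).comp (C ((d : ℂ)⁻¹) * X) with hq
  have hqR : ∀ᶠ d : ℕ in atTop, RR (q d) := by
    filter_upwards [eventually_ge_atTop (max j0 1)] with d hd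
    have hd0 : (d : ℝ) ≠ 0 := by
      have : 1 ≤ d := (le_max_right _ _).trans hd
      positivity
    have hne0 : J0 a d ≠ 0 := by
      intro h0
      have h1 := J0_coeff a (d := d) (j := j0) ((le_max_left _ _).trans hd)
      rw [h0, coeff_zero] at h1
      have h2 : ((d.choose j0 : ℕ) : ℂ) ≠ 0 := by
        exact_mod_cast (Nat.choose_pos ((le_max_left _ _).trans hd)).ne'
      exact mul_ne_zero h2 hj0 h1.symm
    have hR := (h d).resolve_left hne0
    intro z hz
    simp only [hq] at hz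
    rw [eval_comp, eval_mul, eval_C, eval_X] at hz
    have h1 := hR _ hz
    have h2 : ((d : ℂ)⁻¹ * z).im = (d : ℝ)⁻¹ * z.im := by
      have : ((d : ℂ)⁻¹) = (((d : ℝ)⁻¹ : ℝ) : ℂ) := by push_cast; rfl
      rw [this, Complex.im_ofReal_mul]
    rw [h2] at h1
    exact (mul_eq_zero.mp h1).resolve_left (inv_ne_zero hd0)
  have hlim : ∀ z, Tendsto (fun d => (q d).eval z) atTop (𝓝 (F z)) := by
    intro z
    have e1 : ∀ d, (q d).eval z = ∑' j : ℕ, (d.choose j : ℂ) * a j * ((d : ℂ)⁻¹ * z) ^ j := by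
      intro d
      simp only [hq]
      rw [eval_comp, eval_mul, eval_C, eval_X, J0_eval, tsum_eq_sum]
      intro j hj
      rw [Finset.mem_range, not_lt] at hj
      rw [Nat.choose_eq_zero_of_lt (by omega)]
      simp
    simp only [e1]
    rw [← (htay z).tsum_eq]
    have hsum : Summable fun j : ℕ => ‖(j.factorial : ℂ)⁻¹ * a j * z ^ j‖ := (htay z).summable.norm
    refine tendsto_tsum_of_dominated_convergence hsum (fun j => ?_) (Eventually.of_forall fun d j => ?_)
    · have h1 : Tendsto (fun d : ℕ => ((d.choose j : ℕ) : ℝ) * ((d : ℝ)⁻¹) ^ j) atTop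
          (𝓝 ((j.factorial : ℝ)⁻¹)) := by
        have h3 : Tendsto (fun n : ℕ => (n : ℝ) * (n : ℝ)⁻¹) atTop (𝓝 1) := by
          refine tendsto_const_nhds.congr' ?_
          filter_upwards [eventually_gt_atTop 0] with n hn
          have : (n : ℝ) ≠ 0 := by positivity
          rw [mul_inv_cancel₀ this]
        have h2 := ProbabilityTheory.tendsto_choose_mul_pow_atTop j h3
        rw [one_pow, one_div] at h2
        exact h2
      have h2 : Tendsto (fun d : ℕ => ((((d.choose j : ℕ) : ℝ) * ((d : ℝ)⁻¹) ^ j : ℝ) : ℂ)) atTop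
          (𝓝 (((j.factorial : ℝ)⁻¹ : ℝ) : ℂ)) := (Complex.continuous_ofReal.tendsto _).comp h1
      have h3 := (h2.mul_const (a j)).mul_const (z ^ j)
      push_cast at h3
      refine h3.congr fun d => ?_
      rw [mul_pow]
      ring
    · generalize a j = A
      rw [mul_pow, norm_mul, norm_mul, norm_mul, norm_mul, norm_mul]
      have h1 : ‖((d.choose j : ℕ) : ℂ)‖ * ‖((d : ℂ)⁻¹) ^ j‖ ≤ ‖((j.factorial : ℕ) : ℂ)⁻¹‖ := by
        rw [norm_pow, norm_inv, norm_inv, Complex.norm_natCast, Complex.norm_natCast, Complex.norm_natCast]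
        rcases Nat.eq_zero_or_pos d with rfl | hd
        · rcases Nat.eq_zero_or_pos j with rfl | hj
          · simp
          · rw [Nat.choose_eq_zero_of_lt hj]
            simp
        · have h2 : ((d.choose j : ℕ) : ℝ) ≤ (d : ℝ) ^ j / (j.factorial : ℝ) := Nat.choose_le_pow_div j d
          have h3 : (0 : ℝ) < d := by exact_mod_cast hd
          calc ((d.choose j : ℕ) : ℝ) * ((d : ℝ)⁻¹) ^ j ≤ (d : ℝ) ^ j / (j.factorial : ℝ) * ((d : ℝ)⁻¹) ^ j := by
                gcongr
            _ = (j.factorial : ℝ)⁻¹ := by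
                rw [inv_pow]
                field_simp
      calc ‖((d.choose j : ℕ) : ℂ)‖ * ‖A‖ * (‖((d : ℂ)⁻¹) ^ j‖ * ‖z ^ j‖)
          = (‖((d.choose j : ℕ) : ℂ)‖ * ‖((d : ℂ)⁻¹) ^ j‖) * (‖A‖ * ‖z ^ j‖) := by ring
        _ ≤ ‖((j.factorial : ℕ) : ℂ)⁻¹‖ * (‖A‖ * ‖z ^ j‖) := by gcongr
        _ = _ := by ring
  -- conclusion
  by_contra hre
  set z : ℂ := (s - 1 / 2) / I with hzdef
  have hzim : z.im = 1 / 2 - s.re := by
    rw [hzdef, Complex.div_I]
    simp
  have hFz : F z = 0 := by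
    simp only [hF]
    rw [hzdef, mul_div_cancel₀ _ I_ne_zero, add_sub_cancel]
    exact hs
  have hzne : z.im ≠ 0 := by
    rw [hzim]
    intro h0
    exact hre (by linarith)
  have hseg : ∀ y' : ℝ, |y'| ≤ |z.im| → F ((z.re : ℂ) + y' * I) = 0 := fun y' hy' =>
    lim_zero (f := F) hqR hlim (x := z.re) (y := z.im) (by rw [Complex.re_add_im]; exact hFz) hy'
  obtain ⟨w, hw⟩ := hFne
  apply hw
  have hA : AnalyticOnNhd ℂ F Set.univ := fun x _ => hFd.analyticAt x
  refine hA.eqOn_zero_of_preconnected_of_frequently_eq_zero isPreconnected_univ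
    (Set.mem_univ (z.re : ℂ)) ?_ (Set.mem_univ w)
  have ht : Tendsto (fun n : ℕ => (z.re : ℂ) + (((|z.im|) * (1 / ((n : ℝ) + 1)) : ℝ) : ℂ) * I) atTop
      (𝓝[≠] (z.re : ℂ)) := by
    rw [tendsto_nhdsWithin_iff]
    constructor
    · have h1 : Tendsto (fun n : ℕ => (((|z.im|) * (1 / ((n : ℝ) + 1)) : ℝ) : ℂ)) atTop
          (𝓝 (((|z.im|) * 0 : ℝ) : ℂ)) :=
        (Complex.continuous_ofReal.tendsto _).comp (tendsto_one_div_add_atTop_nhds_zero_nat.const_mul _)
      have h2 := (h1.mul_const I).const_add (z.re : ℂ)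
      simpa using h2
    · refine Eventually.of_forall fun n => ?_
      rw [Set.mem_compl_iff, Set.mem_singleton_iff]
      intro h0
      rcases mul_eq_zero.mp (add_eq_left.mp h0) with h1 | h1
      · have h2 : (0 : ℝ) < |z.im| * (1 / ((n : ℝ) + 1)) := by
          have := abs_pos.mpr hzne
          positivity
        exact h2.ne' (Complex.ofReal_eq_zero.mp h1)
      · exact I_ne_zero h1
  refine ht.frequently (Frequently.of_forall fun n => hseg _ ?_)
  have h1 : 1 / ((n : ℝ) + 1) ≤ 1 := by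
    rw [div_le_one (by positivity)]
    have : (0 : ℝ) ≤ n := Nat.cast_nonneg n
    linarith
  have h2 : 0 ≤ 1 / ((n : ℝ) + 1) := by positivity
  rw [abs_mul, abs_abs, abs_of_nonneg h2]
  have := abs_nonneg z.im
  nlinarith

end Pool.Agent.H466.JE
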